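import Pool.Agent.Work.MP_0fc146_gt_h31.Interface

/-!
# Block A : algebra of the tables
-/

noncomputable section

namespace Pool.Agent.CircleShift

/-- `f` is a table for `φ`. -/
def HasTab (φ : MulAut G) (f : Fin 4 → List (Fin 4 × Bool)) : Prop :=
  ∀ w, φ (FreeGroup.mk w) = FreeGroup.mk (substW f w)

theorem hasTab_ofTabs (f g : Fin 4 → List (Fin 4 × Bool)) (h : invTest f g = true) :
    HasTab (ofTabs f g h) f := fun w => ofTabs_mk f g h w

theorem hasTab_ofTabs_inv (f g : Fin 4 → List (Fin 4 × Bool)) (h : invTest f g = true) :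
    HasTab (ofTabs f g h)⁻¹ g := fun w => ofTabs_symm_mk f g h w

theorem substW_invRev (f : Fin 4 → List (Fin 4 × Bool)) (w : List (Fin 4 × Bool)) :
    substW f (FreeGroup.invRev w) = FreeGroup.invRev (substW f w) := by
  induction w with
  | nil => rfl
  | cons x w ih =>
    have h1 : FreeGroup.invRev (x :: w) = FreeGroup.invRev w ++ [(x.1, !x.2)] := by
      simp [FreeGroup.invRev]
    have h2 : ∀ u v : List (Fin 4 × Bool), FreeGroup.invRev (u ++ v) =
        FreeGroup.invRev v ++ FreeGroup.invRev u := by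
      intro u v; simp [FreeGroup.invRev]
    have h3 : ∀ u v : List (Fin 4 × Bool), substW f (u ++ v) = substW f u ++ substW f v := by
      intro u v; simp [substW]
    have h4 : substW f (x :: w) = (if x.2 then f x.1 else FreeGroup.invRev (f x.1)) ++ substW f w := by
      simp [substW]
    rw [h1, h3, ih, h4, h2]
    congr 1
    rcases x with ⟨i, b⟩
    cases b <;> simp [substW, FreeGroup.invRev_invRev]

theorem substW_substW (f g : Fin 4 → List (Fin 4 × Bool)) (w : List (Fin 4 × Bool)) :
    substW f (substW g w) = substW (fun i => substW f (g i)) w := by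
  induction w with
  | nil => rfl
  | cons x w ih =>
    have h3 : ∀ u v : List (Fin 4 × Bool), substW f (u ++ v) = substW f u ++ substW f v := by
      intro u v; simp [substW]
    have h4 : ∀ (f : Fin 4 → List (Fin 4 × Bool)), substW f (x :: w) =
        (if x.2 then f x.1 else FreeGroup.invRev (f x.1)) ++ substW f w := by
      intro f; simp [substW]
    rw [h4, h3, ih, h4]
    congr 1
    rcases x with ⟨i, b⟩
    cases b <;> simp [substW_invRev]

theorem HasTab.mul {φ ψ : MulAut G} {f g : Fin 4 → List (Fin 4 × Bool)} (h1 : HasTab φ f)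
    (h2 : HasTab ψ g) : HasTab (φ * ψ) (fun i => substW f (g i)) := by
  intro w
  rw [MulAut.mul_apply, h2, h1, substW_substW]

theorem hasTab_one : HasTab 1 (fun i => [(i, true)]) := by
  intro w
  rw [MulAut.one_apply]
  congr 1
  induction w with
  | nil => rfl
  | cons x w ih =>
    rcases x with ⟨i, b⟩
    have : substW (fun i => [(i, true)]) ((i, b) :: w) =
      (if b then [(i, true)] else FreeGroup.invRev [(i, true)]) ++ substW (fun i => [(i, true)]) w := by
      simp [substW]
    rw [this, ← ih]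
    cases b <;> simp [FreeGroup.invRev]

theorem mulAut_ext_of_tab {φ ψ : MulAut G} {f g : Fin 4 → List (Fin 4 × Bool)} (h1 : HasTab φ f)
    (h2 : HasTab ψ g) (h : ∀ i, FreeGroup.reduce (f i) = FreeGroup.reduce (g i)) : φ = ψ := by
  have h3 : φ.toMonoidHom = ψ.toMonoidHom := by
    ext i
    change φ (FreeGroup.mk [(i, true)]) = ψ (FreeGroup.mk [(i, true)])
    rw [h1, h2]
    apply FreeGroup.reduce.exact
    simpa [substW] using h i
  exact MulEquiv.toMonoidHom_injective h3

theorem HasTab.congr {φ : MulAut G} {f g : Fin 4 → List (Fin 4 × Bool)} (h1 : HasTab φ f)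
    (h : ∀ i, FreeGroup.reduce (g i) = FreeGroup.reduce (f i)) : HasTab φ g := by
  intro w
  rw [h1 w, ← lift_mk, ← lift_mk]
  have : (fun i => (FreeGroup.mk (f i) : G)) = fun i => FreeGroup.mk (g i) := by
    funext i
    exact FreeGroup.reduce.exact (h i).symm
  rw [this]

theorem HasTab.red {φ : MulAut G} {f : Fin 4 → List (Fin 4 × Bool)} (h1 : HasTab φ f) :
    HasTab φ (fun i => FreeGroup.reduce (f i)) := h1.congr (fun _ => FreeGroup.reduce.idem)

def thTab : Fin 3 → Fin 4 → List (Fin 4 × Bool) := ![fun i => [(i, true)],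
  fun i => FreeGroup.reduce (substW (fun i => posW (roleSub 12 i)) (roleInv 2 i)),
  fun i => FreeGroup.reduce (substW (fun i => posW (roleSub 3 i)) (roleInv 2 i))]

def thInvTab : Fin 3 → Fin 4 → List (Fin 4 × Bool) := ![fun i => [(i, true)],
  fun i => FreeGroup.reduce (substW (fun i => posW (roleSub 2 i)) (roleInv 12 i)),
  fun i => FreeGroup.reduce (substW (fun i => posW (roleSub 2 i)) (roleInv 3 i))]

theorem hasTab_role (r : Fin 13) : HasTab (roleAut r) (fun i => posW (roleSub r i)) :=
  hasTab_ofTabs _ _ _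

theorem hasTab_role_inv (r : Fin 13) : HasTab (roleAut r)⁻¹ (roleInv r) :=
  hasTab_ofTabs_inv _ _ _

theorem hasTab_th (j : Fin 3) : HasTab (thAut j) (thTab j) := by
  fin_cases j
  · exact hasTab_one
  · exact ((hasTab_role 12).mul (hasTab_role_inv 2)).red
  · exact ((hasTab_role 3).mul (hasTab_role_inv 2)).red

theorem hasTab_th_inv (j : Fin 3) : HasTab (thAut j)⁻¹ (thInvTab j) := by
  fin_cases j
  · change HasTab (1 : MulAut G)⁻¹ _
    rw [inv_one]; exact hasTab_one
  · change HasTab (roleAut 12 * (roleAut 2)⁻¹)⁻¹ _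
    rw [mul_inv_rev, inv_inv]
    exact ((hasTab_role 2).mul (hasTab_role_inv 12)).red
  · change HasTab (roleAut 3 * (roleAut 2)⁻¹)⁻¹ _
    rw [mul_inv_rev, inv_inv]
    exact ((hasTab_role 2).mul (hasTab_role_inv 3)).red

theorem hasTab_let (l : Fin 7) : HasTab (letAut l) (letSub l) := hasTab_ofTabs _ _ _

theorem let_test : ∀ r : Fin 13, ∀ i : Fin 4, FreeGroup.reduce (letSub (roleLetter r) i) =
    FreeGroup.reduce (substW (thInvTab (roleSrc r)) (FreeGroup.reduce
      (substW (fun i => posW (roleSub r i)) (thTab (roleTgt r) i)))) := by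
  decide +kernel

theorem stmt_Let : Stmt_Let := fun r =>
  mulAut_ext_of_tab (hasTab_let _)
    ((hasTab_th_inv (roleSrc r)).mul ((hasTab_role r).mul (hasTab_th (roleTgt r))).red)
    (let_test r) |>.trans (mul_assoc _ _ _).symm

theorem hasTab_rho : HasTab rhoAut rhoTab := hasTab_ofTabs _ _ _
theorem hasTab_u : HasTab uAut (fun i => posW (roleSub 2 i)) := hasTab_role 2
theorem hasTab_u_inv : HasTab uAut⁻¹ (roleInv 2) := hasTab_role_inv 2
theorem hasTab_psi : HasTab psiAut psiTab := hasTab_ofTabs _ _ _
theorem hasTab_psi_inv : HasTab psiAut⁻¹ psiInvTab := hasTab_ofTabs_inv _ _ _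
theorem hasTab_rhoT : HasTab rhoT rhoTTab := hasTab_ofTabs _ _ _
theorem hasTab_thA : HasTab thA thATab := hasTab_ofTabs _ _ _
theorem hasTab_thA_inv : HasTab thA⁻¹ thAInvTab := hasTab_ofTabs_inv _ _ _

theorem stmt_Rho : Stmt_Rho := by
  refine ⟨?_, ?_, ?_, ?_⟩
  · exact mulAut_ext_of_tab (hasTab_rho.mul hasTab_rho) hasTab_one (by decide +kernel)
  · exact mulAut_ext_of_tab ((hasTab_rho.mul hasTab_u).mul hasTab_rho) hasTab_u_inv
      (by decide +kernel)
  · exact mulAut_ext_of_tab (hasTab_psi.mul hasTab_rhoT) (hasTab_rho.mul hasTab_psi)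
      (by decide +kernel)
  · exact mulAut_ext_of_tab (hasTab_rhoT.mul hasTab_rhoT) hasTab_one (by decide +kernel)

theorem c_eq : c = FreeGroup.mk [(0, true), (1, true), (0, false), (1, false), (2, true), (3, true),
    (2, false), (3, false)] := by
  simp only [c, a, FreeGroup.of, FreeGroup.inv_mk, FreeGroup.mul_mk]
  rfl

theorem isConj_of_reduce {x y : G} {w v g : List (Fin 4 × Bool)} (hx : x = FreeGroup.mk w)
    (hy : y = FreeGroup.mk v)
    (h : FreeGroup.reduce w = FreeGroup.reduce (g ++ v ++ FreeGroup.invRev g)) : IsConj x y := by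
  refine IsConj.symm (isConj_iff.2 ⟨FreeGroup.mk g, ?_⟩)
  rw [hx, hy, FreeGroup.inv_mk, FreeGroup.mul_mk, FreeGroup.mul_mk]
  exact (FreeGroup.reduce.exact h).symm

def cW : List (Fin 4 × Bool) := [(0, true), (1, true), (0, false), (1, false), (2, true), (3, true),
  (2, false), (3, false)]

/-- Conjugators: `φ_l c = g c g⁻¹`. -/
def perTab : Fin 7 → List (Fin 4 × Bool) := ![
  [(1, false), (1, false), (1, false), (0, false), (3, true), (2, false), (3, false)],
  [(3, false)],
  [(1, false), (1, false), (0, false), (3, true), (2, false), (3, false)],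
  [(3, false), (0, true), (1, true), (0, false), (1, false), (2, true), (0, true), (1, true), (1, true), (1, true), (3, false)],
  [(2, true), (3, false), (3, false), (0, true), (1, true), (0, false), (1, false), (2, true), (3, true), (2, false), (0, true), (1, true), (1, true), (1, true), (2, true), (3, false), (3, false)],
  [(3, false), (0, true), (1, true), (0, false), (1, false), (2, true), (3, false), (0, true), (1, true), (0, false), (1, false), (3, false), (0, true), (1, true), (0, false), (1, false), (2, true), (3, true), (2, false), (1, true), (0, true), (1, false), (0, false), (3, true), (0, true), (1, true), (1, true), (1, true), (3, false), (0, true), (1, true), (0, false), (1, false), (2, true), (3, false), (0, true), (1, true), (0, false), (1, false), (3, false)],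
  [(3, false), (0, true), (1, true), (0, false), (1, false), (2, true), (3, false), (0, true), (1, true), (0, false), (1, false), (2, true), (3, false), (0, true), (1, true), (0, false), (1, false), (3, false), (0, true), (1, true), (0, false), (1, false), (2, true), (3, true), (2, false), (1, true), (0, true), (1, false), (0, false), (3, true), (2, false), (1, true), (0, true), (1, false), (0, false), (3, true), (0, true), (1, true), (1, true), (1, true), (3, false), (0, true), (1, true), (0, false), (1, false), (2, true), (3, false), (0, true), (1, true), (0, false), (1, false), (2, true), (3, false), (0, true), (1, true), (0, false), (1, false), (3, false)]]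

theorem per_test : ∀ l : Fin 7, FreeGroup.reduce (substW thAInvTab (FreeGroup.reduce
    (substW (letSub l) (FreeGroup.reduce (substW thATab cW))))) =
    FreeGroup.reduce (perTab l ++ cW ++ FreeGroup.invRev (perTab l)) := by
  decide +kernel

theorem stmt_Per : Stmt_Per := by
  refine ⟨fun l => ?_, ?_, fun g hg => ?_⟩
  · change IsConj _ c
    have h1 : (thA⁻¹ * letAut l * thA) c = FreeGroup.mk (FreeGroup.reduce (substW thAInvTab
        (FreeGroup.reduce (substW (letSub l) (FreeGroup.reduce (substW thATab cW)))))) := by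
      rw [FreeGroup.reduce.self, ← hasTab_thA_inv, FreeGroup.reduce.self, ← hasTab_let,
        FreeGroup.reduce.self, ← hasTab_thA, c_eq]
      rfl
    exact isConj_of_reduce h1 c_eq (by rw [FreeGroup.reduce.idem, per_test]; rfl)
  · change IsConj _ c
    have h1 : (thA⁻¹ * uAut * thA) c = FreeGroup.mk (FreeGroup.reduce (substW thAInvTab
        (FreeGroup.reduce (substW (fun i => posW (roleSub 2 i))
          (FreeGroup.reduce (substW thATab cW)))))) := by
      rw [FreeGroup.reduce.self, ← hasTab_thA_inv, FreeGroup.reduce.self, ← hasTab_u,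
        FreeGroup.reduce.self, ← hasTab_thA, c_eq]
      rfl
    exact isConj_of_reduce (g := [(3, false)]) h1 c_eq (by decide +kernel)
  · have h1 : (psiAut⁻¹ * thA) c = chat := by
      have := psiAut_chat
      change psiAut⁻¹ (thA c) = chat
      rw [← this]
      exact MulAut.inv_apply_self _ _ _
    have h2 : IsConj (g c) c := hg
    obtain ⟨d, hd⟩ := isConj_iff.1 h2
    refine isConj_iff.2 ⟨(psiAut⁻¹ * thA) d, ?_⟩
    rw [← h1]
    change (psiAut⁻¹ * thA) d * (psiAut⁻¹ * thA) (g c) * ((psiAut⁻¹ * thA) d)⁻¹ = _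
    rw [← map_inv, ← map_mul, ← map_mul, hd]

/-! ### Traces -/

def xmat : Fin 4 × Bool → ℤ × ℤ × ℤ × ℤ
  | (0, true) => (5, -2, -2, 1)
  | (1, true) => (5, -3, -3, 2)
  | (2, true) => (2, -3, -3, 5)
  | (3, true) => (1, -2, -2, 5)
  | (0, false) => (1, 2, 2, 5)
  | (1, false) => (2, 3, 3, 5)
  | (2, false) => (5, 3, 3, 2)
  | (3, false) => (5, 2, 2, 1)

def mul4 (x y : ℤ × ℤ × ℤ × ℤ) : ℤ × ℤ × ℤ × ℤ :=
  (x.1 * y.1 + x.2.1 * y.2.2.1, x.1 * y.2.1 + x.2.1 * y.2.2.2,
    x.2.2.1 * y.1 + x.2.2.2 * y.2.2.1, x.2.2.1 * y.2.1 + x.2.2.2 * y.2.2.2)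

def ev4 : List (Fin 4 × Bool) → ℤ × ℤ × ℤ × ℤ
  | [] => (1, 0, 0, 1)
  | x :: w => mul4 (xmat x) (ev4 w)

theorem ev4_spec (w : List (Fin 4 × Bool)) :
    (xrep (FreeGroup.mk w) : Matrix (Fin 2) (Fin 2) ℤ) =
      !![(ev4 w).1, (ev4 w).2.1; (ev4 w).2.2.1, (ev4 w).2.2.2] := by
  induction w with
  | nil =>
    have : (FreeGroup.mk [] : G) = 1 := rfl
    rw [this, map_one]
    simp [ev4, Matrix.one_fin_two]
  | cons x w ih =>
    have h1 : (FreeGroup.mk (x :: w) : G) = FreeGroup.mk [x] * FreeGroup.mk w := by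
      rw [FreeGroup.mul_mk]; rfl
    rw [h1, map_mul, Matrix.SpecialLinearGroup.coe_mul, ih]
    have h2 : (xrep (FreeGroup.mk [x]) : Matrix (Fin 2) (Fin 2) ℤ) =
        !![(xmat x).1, (xmat x).2.1; (xmat x).2.2.1, (xmat x).2.2.2] := by
      rcases x with ⟨i, b⟩
      fin_cases i <;> cases b <;>
        (simp only [xrep, FreeGroup.lift_mk]; decide +kernel)
    rw [h2, Matrix.mul_fin_two]
    rfl

def tr4 (w : List (Fin 4 × Bool)) : ℤ := (ev4 w).1 + (ev4 w).2.2.2

theorem tr4_conj {x y : G} {w v : List (Fin 4 × Bool)} (h : IsConj x y)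
    (hx : x = FreeGroup.mk w) (hy : y = FreeGroup.mk v) : tr4 w = tr4 v := by
  obtain ⟨g, hg⟩ := isConj_iff.1 h
  have h1 : Matrix.trace (xrep y : Matrix (Fin 2) (Fin 2) ℤ) =
      Matrix.trace (xrep x : Matrix (Fin 2) (Fin 2) ℤ) := by
    rw [← hg, map_mul, map_mul, Matrix.SpecialLinearGroup.coe_mul,
      Matrix.SpecialLinearGroup.coe_mul, Matrix.trace_mul_comm, ← mul_assoc,
      ← Matrix.SpecialLinearGroup.coe_mul, ← map_mul, inv_mul_cancel, map_one,
      Matrix.SpecialLinearGroup.coe_one, one_mul]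
  rw [hx, hy, ev4_spec, ev4_spec, Matrix.trace_fin_two, Matrix.trace_fin_two] at h1
  simpa [tr4] using h1.symm

def eltTab : Option (Fin 7) → Fin 4 → List (Fin 4 × Bool)
  | some l => letSub l
  | none => roleInv 2

theorem hasTab_elt (x : Option (Fin 7)) : HasTab (elt x) (eltTab x) := by
  cases x with
  | none => exact hasTab_u_inv
  | some l => exact hasTab_let l

/-- The test word. -/
def testW : List (Fin 4 × Bool) := [(0, true), (3, true), (2, true)]

theorem dist_test : ∀ x y : Option (Fin 7), tr4 (FreeGroup.reduce (substW psiInvTab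
    (FreeGroup.reduce (substW (eltTab x) testW)))) = tr4 (FreeGroup.reduce (substW psiInvTab
    (FreeGroup.reduce (substW (eltTab y) testW)))) → x = y := by
  decide +kernel

theorem stmt_Dist : Stmt_Dist := by
  intro x y g h
  apply dist_test
  have hx : ∀ z : Option (Fin 7), psiAut⁻¹ (elt z (FreeGroup.mk testW)) = FreeGroup.mk
      (FreeGroup.reduce (substW psiInvTab (FreeGroup.reduce (substW (eltTab z) testW)))) := by
    intro z
    rw [FreeGroup.reduce.self, ← hasTab_psi_inv, FreeGroup.reduce.self, ← hasTab_elt]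
  refine tr4_conj ?_ (hx x) (hx y)
  have h1 : IsConj (elt x (FreeGroup.mk testW)) (elt y (FreeGroup.mk testW)) := by
    rw [h]
    refine isConj_iff.2 ⟨(elt y g)⁻¹, ?_⟩
    rw [MulAut.mul_apply, MulAut.conj_apply, map_mul, map_mul, map_inv]
    group
  obtain ⟨d, hd⟩ := isConj_iff.1 h1
  exact isConj_iff.2 ⟨psiAut⁻¹ d, by rw [← map_inv, ← map_mul, ← map_mul, hd]⟩

end Pool.Agent.CircleShift
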