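import Pool.Agent.Work.MP_0fc146_gt_h31.Defs

/-!
# Internal objects: triangulations with labels, states, roles, letters
-/

noncomputable section

open scoped Topology

namespace Pool.Agent.CircleShift

/-! ## Words and automorphisms given by tables -/

/-- Substitution in words. -/
def substW (f : Fin 4 → List (Fin 4 × Bool)) (w : List (Fin 4 × Bool)) : List (Fin 4 × Bool) :=
  w.flatMap (fun x => if x.2 then f x.1 else FreeGroup.invRev (f x.1))

theorem lift_mk (f : Fin 4 → List (Fin 4 × Bool)) (w : List (Fin 4 × Bool)) :
    FreeGroup.lift (fun i => (FreeGroup.mk (f i) : G)) (FreeGroup.mk w) =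
      FreeGroup.mk (substW f w) := by
  induction w with
  | nil => simp [substW, FreeGroup.one_eq_mk]
  | cons x w ih =>
    have h1 : (FreeGroup.mk (x :: w) : G) = FreeGroup.mk [x] * FreeGroup.mk w := by
      rw [FreeGroup.mul_mk]; rfl
    rw [h1, map_mul, ih]
    have h2 : substW f (x :: w) = (if x.2 then f x.1 else FreeGroup.invRev (f x.1)) ++ substW f w := by
      simp [substW]
    rw [h2, ← FreeGroup.mul_mk]
    congr 1
    rcases x with ⟨i, b⟩
    cases b
    · simp [FreeGroup.lift_mk]
    · simp [FreeGroup.lift_mk]

/-- The word of a positive word. -/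
def posW (l : List (Fin 4)) : List (Fin 4 × Bool) := l.map (fun i => (i, true))

/-- The group element of a positive word. -/
def posG (l : List (Fin 4)) : G := FreeGroup.mk (posW l)

/-- Test for a pair of inverse substitutions. -/
def invTest (f g : Fin 4 → List (Fin 4 × Bool)) : Bool :=
  (List.finRange 4).all (fun i => decide (FreeGroup.reduce (substW f (g i)) = [(i, true)]) &&
    decide (FreeGroup.reduce (substW g (f i)) = [(i, true)]))

theorem invTest_spec {f g : Fin 4 → List (Fin 4 × Bool)} (h : invTest f g = true) (i : Fin 4) :
    FreeGroup.lift (fun i => (FreeGroup.mk (f i) : G)) (FreeGroup.mk (g i)) = FreeGroup.of i ∧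
    FreeGroup.lift (fun i => (FreeGroup.mk (g i) : G)) (FreeGroup.mk (f i)) = FreeGroup.of i := by
  unfold invTest at h
  rw [List.all_eq_true] at h
  have h1 := h i (List.mem_finRange i)
  simp only [Bool.and_eq_true, decide_eq_true_eq] at h1
  rw [lift_mk, lift_mk]
  constructor
  · apply FreeGroup.reduce.exact; rw [h1.1]; simp
  · apply FreeGroup.reduce.exact; rw [h1.2]; simp

/-- The automorphism with given tables for itself and its inverse. -/
def ofTabs (f g : Fin 4 → List (Fin 4 × Bool)) (h : invTest f g = true) : MulAut G :=
  MonoidHom.toMulEquiv (FreeGroup.lift (fun i => (FreeGroup.mk (f i) : G)))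
    (FreeGroup.lift (fun i => (FreeGroup.mk (g i) : G)))
    (by
      ext i
      simp only [MonoidHom.comp_apply, FreeGroup.lift_apply_of, MonoidHom.id_apply]
      exact (invTest_spec h i).2)
    (by
      ext i
      simp only [MonoidHom.comp_apply, FreeGroup.lift_apply_of, MonoidHom.id_apply]
      exact (invTest_spec h i).1)

theorem ofTabs_mk (f g : Fin 4 → List (Fin 4 × Bool)) (h : invTest f g = true)
    (w : List (Fin 4 × Bool)) : ofTabs f g h (FreeGroup.mk w) = FreeGroup.mk (substW f w) :=
  lift_mk f w

theorem ofTabs_symm_mk (f g : Fin 4 → List (Fin 4 × Bool)) (h : invTest f g = true)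
    (w : List (Fin 4 × Bool)) :
    (ofTabs f g h)⁻¹ (FreeGroup.mk w) = FreeGroup.mk (substW g w) :=
  lift_mk g w

/-! ## Triangulations -/

/-- Eight triangles with labelled gluings.  Edge `i` of a triangle is opposite to vertex `i`, so it
joins the vertices `i + 1` and `i + 2`.  The triangle `(h, t)`, `h : G`, is glued along edge `i` to
the triangle `(h * lab t i, (nb t i).1)` along its edge `(nb t i).2`, reversing the edge: vertex
`i + 1` is glued to vertex `(nb t i).2 + 2`.  `pos` are the values of the transverse coordinate at
the vertices. -/
structure Tri where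
  pos : Fin 8 → Fin 3 → ℝ
  nb : Fin 8 → Fin 3 → Fin 8 × Fin 3
  lab : Fin 8 → Fin 3 → G

/-- A leaf with value `q` meets the triangle `t`. -/
def Tri.InRange (T : Tri) (t : Fin 8) (q : ℝ) : Prop := ∃ i j, T.pos t i ≤ q ∧ q ≤ T.pos t j

/-- A leaf with value `q` meets the edge `i` of the triangle `t`. -/
def Tri.InEdge (T : Tri) (t : Fin 8) (i : Fin 3) (q : ℝ) : Prop :=
  q ∈ Set.uIcc (T.pos t (i + 1)) (T.pos t (i + 2))

/-- The change of the transverse coordinate when edge `i` of triangle `t` is crossed. -/
def Tri.shift (T : Tri) (t : Fin 8) (i : Fin 3) : ℝ :=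
  T.pos (T.nb t i).1 ((T.nb t i).2 + 2) - T.pos t (i + 1)

/-- `T.Chain x y r`: the leaf `y` can be reached from the leaf `x` with total variation `r`. -/
inductive Tri.Chain (T : Tri) : G × Fin 8 × ℝ → G × Fin 8 × ℝ → ℝ → Prop
  | slide (h : G) (t : Fin 8) (q q' : ℝ) : T.InRange t q → T.InRange t q' →
      Tri.Chain T (h, t, q) (h, t, q') |q - q'|
  | cross (h : G) (t : Fin 8) (i : Fin 3) (q : ℝ) : T.InEdge t i q →
      Tri.Chain T (h, t, q) (h * T.lab t i, (T.nb t i).1, q + T.shift t i) 0
  | trans {x y z : G × Fin 8 × ℝ} {r r' : ℝ} : Tri.Chain T x y r → Tri.Chain T y z r' →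
      Tri.Chain T x z (r + r')

/-- The intersection number of `g` with the vertical foliation of `T`. -/
def Tri.V (T : Tri) (g : G) : ℝ :=
  sInf {r | ∃ h t q, T.Chain (h, t, q) (g * h, t, q) r}

/-- The based version: `T.C h h' r` if some leaf over `h` can be joined to some leaf over `h'` with
variation `r`. -/
def Tri.Vs (T : Tri) (h h' : G) : ℝ :=
  sInf {r | ∃ t q t' q', T.Chain (h, t, q) (h', t', q') r}

/-- Symbolic triangulation: the position `(a, b, k)` stands for `(a + b √3) / 2 + k s`. -/
structure STri where
  pos : Fin 8 → Fin 3 → ℤ × ℤ × ℤ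
  nb : Fin 8 → Fin 3 → Fin 8 × Fin 3
  lab : Fin 8 → Fin 3 → List (Fin 4 × Bool)

/-- The triangulation at the parameter `s`. -/
def STri.real (T : STri) (s : ℝ) : Tri where
  pos t i := ((T.pos t i).1 + (T.pos t i).2.1 * √3) / 2 + (T.pos t i).2.2 * s
  nb := T.nb
  lab t i := FreeGroup.mk (T.lab t i)

/-- The P-type triangulation of state 0. -/
def stri0 : STri where
  pos := ![
    ![(0, 0, 1), (11, -7, 0), (-3, 1, 0)],
    ![(0, 0, 1), (1, -1, 0), (11, -7, 0)],
    ![(0, 0, 1), (5, -3, 0), (1, -1, 0)],
    ![(0, 0, 1), (-1, 1, 0), (5, -3, 0)],
    ![(0, 0, 1), (-3, 1, 0), (-9, 5, 0)],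
    ![(0, 0, 1), (-9, 5, 0), (-19, 11, 0)],
    ![(0, 0, 1), (-19, 11, 0), (-5, 3, 0)],
    ![(0, 0, 1), (-5, 3, 0), (-1, 1, 0)]]
  nb := ![
    ![(6, 0), (4, 2), (1, 1)],
    ![(5, 0), (0, 2), (2, 1)],
    ![(7, 0), (1, 2), (3, 1)],
    ![(4, 0), (2, 2), (7, 1)],
    ![(3, 0), (5, 2), (0, 1)],
    ![(1, 0), (6, 2), (4, 1)],
    ![(0, 0), (7, 2), (5, 1)],
    ![(2, 0), (3, 2), (6, 1)]]
  lab := ![
    ![[(1, false), (3, false)], [], []],
    ![[(0, true), (3, false)], [], []],
    ![[(0, true), (1, true), (0, false), (1, false), (3, false)], [], []],
    ![[(0, true), (1, true), (2, true)], [], [(0, true), (1, true), (2, true), (3, true), (2, false), (0, false), (1, false), (3, false)]],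
    ![[(2, false), (1, false), (0, false)], [], []],
    ![[(3, true), (0, false)], [], []],
    ![[(3, true), (1, true)], [], []],
    ![[(3, true), (1, true), (0, true), (1, false), (0, false)], [(3, true), (1, true), (0, true), (2, true), (3, false), (2, false), (1, false), (0, false)], []]]

/-- The P-type triangulation of state 1. -/
def stri1 : STri where
  pos := ![
    ![(0, 0, 1), (5, -3, 0), (1, -1, 0)],
    ![(0, 0, 1), (19, -11, 0), (5, -3, 0)],
    ![(0, 0, 1), (9, -5, 0), (19, -11, 0)],
    ![(0, 0, 1), (3, -1, 0), (9, -5, 0)],
    ![(0, 0, 1), (1, -1, 0), (-5, 3, 0)],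
    ![(0, 0, 1), (-5, 3, 0), (-1, 1, 0)],
    ![(0, 0, 1), (-1, 1, 0), (-11, 7, 0)],
    ![(0, 0, 1), (-11, 7, 0), (3, -1, 0)]]
  nb := ![
    ![(5, 0), (4, 2), (1, 1)],
    ![(7, 0), (0, 2), (2, 1)],
    ![(6, 0), (1, 2), (3, 1)],
    ![(4, 0), (2, 2), (7, 1)],
    ![(3, 0), (5, 2), (0, 1)],
    ![(0, 0), (6, 2), (4, 1)],
    ![(2, 0), (7, 2), (5, 1)],
    ![(1, 0), (3, 2), (6, 1)]]
  lab := ![
    ![[(3, false)], [], []],
    ![[(0, true), (2, false), (0, false), (3, false)], [], []],
    ![[(0, true), (1, true), (0, false), (3, false)], [], []],
    ![[(0, true), (1, true), (2, true)], [], [(0, true), (1, true), (2, true), (3, true), (1, false), (2, false), (0, false), (3, false)]],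
    ![[(2, false), (1, false), (0, false)], [], []],
    ![[(3, true)], [], []],
    ![[(3, true), (0, true), (1, false), (0, false)], [], []],
    ![[(3, true), (0, true), (2, true), (0, false)], [(3, true), (0, true), (2, true), (1, true), (3, false), (2, false), (1, false), (0, false)], []]]

/-- The P-type triangulation of state 2. -/
def stri2 : STri where
  pos := ![
    ![(0, 0, 1), (51, -29, 0), (-1, 1, 0)],
    ![(0, 0, 1), (13, -7, 0), (51, -29, 0)],
    ![(0, 0, 1), (3, -1, 0), (13, -7, 0)],
    ![(0, 0, 1), (1, 1, 0), (3, -1, 0)],
    ![(0, 0, 1), (-1, 1, 0), (-3, 3, 0)],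
    ![(0, 0, 1), (-3, 3, 0), (-13, 9, 0)],
    ![(0, 0, 1), (-13, 9, 0), (-51, 31, 0)],
    ![(0, 0, 1), (-51, 31, 0), (1, 1, 0)]]
  nb := ![
    ![(7, 0), (4, 2), (1, 1)],
    ![(6, 0), (0, 2), (2, 1)],
    ![(5, 0), (1, 2), (3, 1)],
    ![(4, 0), (2, 2), (7, 1)],
    ![(3, 0), (5, 2), (0, 1)],
    ![(2, 0), (6, 2), (4, 1)],
    ![(1, 0), (7, 2), (5, 1)],
    ![(0, 0), (3, 2), (6, 1)]]
  lab := ![
    ![[(1, false), (2, false), (3, false)], [], []],
    ![[(0, true), (2, false), (3, false)], [], []],
    ![[(0, true), (1, true), (3, false)], [], []],
    ![[(0, true), (1, true), (2, true)], [], [(0, true), (1, true), (2, true), (3, true), (0, false), (1, false), (2, false), (3, false)]],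
    ![[(2, false), (1, false), (0, false)], [], []],
    ![[(3, true), (1, false), (0, false)], [], []],
    ![[(3, true), (2, true), (0, false)], [], []],
    ![[(3, true), (2, true), (1, true)], [(3, true), (2, true), (1, true), (0, true), (3, false), (2, false), (1, false), (0, false)], []]]

/-- The triangulation of the octagon (with parameter `S`). -/
def ostri : STri where
  pos := ![
    ![(0, 0, 0), (3, 1, 1), (-5, -3, 1)],
    ![(0, 0, 0), (-5, -3, 1), (1, 1, 1)],
    ![(0, 0, 0), (1, 1, 1), (1, -1, 1)],
    ![(0, 0, 0), (1, -1, 1), (-3, -1, 1)],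
    ![(0, 0, 0), (-3, -1, 1), (5, 3, 1)],
    ![(0, 0, 0), (5, 3, 1), (-1, -1, 1)],
    ![(0, 0, 0), (-1, -1, 1), (-1, 1, 1)],
    ![(0, 0, 0), (-1, 1, 1), (3, 1, 1)]]
  nb := ![
    ![(4, 0), (1, 2), (7, 1)],
    ![(5, 0), (2, 2), (0, 1)],
    ![(6, 0), (3, 2), (1, 1)],
    ![(7, 0), (4, 2), (2, 1)],
    ![(0, 0), (5, 2), (3, 1)],
    ![(1, 0), (6, 2), (4, 1)],
    ![(2, 0), (7, 2), (5, 1)],
    ![(3, 0), (0, 2), (6, 1)]]
  lab := ![
    ![[(0, true)], [], []],
    ![[(1, true)], [], []],
    ![[(2, true)], [], []],
    ![[(3, true)], [], []],
    ![[(0, false)], [], []],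
    ![[(1, false)], [], []],
    ![[(2, false)], [], []],
    ![[(3, false)], [], []]]

/-! ## The numbers -/

/-- The expansion factor `2 + √3`. -/
def lam : ℝ := 2 + √3

/-- `a + b √3`. -/
def z3 (x : ℤ × ℤ) : ℝ := x.1 + x.2 * √3

/-- The left end points (times 2) of the intervals of the states. -/
def endTab : Fin 3 → ℤ × ℤ := ![(-3, 1), (1, -1), (-1, 1)]

/-- The left end points of the intervals of the states. -/
def lft (j : Fin 3) : ℝ := z3 (endTab j) / 2

/-- The intervals of the states. -/
def K (j : Fin 3) : Set ℝ := Set.Icc (lft j) (lft j + 1)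

/-- The widths. -/
def widTab : Fin 3 → Fin 4 → ℤ × ℤ := ![
  ![(7, -4), (-5, 3), (2, -1), (-3, 2)],
  ![(2, -1), (7, -4), (-5, 3), (-3, 2)],
  ![(26, -15), (-19, 11), (-5, 3), (-1, 1)]]

/-- The widths. -/
def wid (j : Fin 3) (k : Fin 4) : ℝ := z3 (widTab j k)

/-- The weighted length of a word. -/
def wlen (j : Fin 3) (w : List (Fin 4 × Bool)) : ℝ := (w.map (fun x => wid j x.1)).sum

/-- The weighted length of the reduced word of a group element. -/
def wnorm (j : Fin 3) (g : G) : ℝ := wlen j g.toWord

/-- The triangulations of the three states. -/
def stri : Fin 3 → STri := ![stri0, stri1, stri2]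

/-- The intersection numbers of state `j` with parameter `s`. -/
def V (j : Fin 3) (s : ℝ) (g : G) : ℝ := ((stri j).real s).V g

/-- The intersection numbers of the octagon with parameter `S`. -/
def VO (S : ℝ) (g : G) : ℝ := (ostri.real S).V g

/-! ## Roles -/

def roleSrc : Fin 13 → Fin 3 := ![1, 2, 0, 2, 2, 0, 2, 0, 0, 0, 1, 1, 1]
def roleTgt : Fin 13 → Fin 3 := ![0, 0, 0, 0, 1, 1, 1, 1, 2, 2, 2, 2, 0]
def roleB : Fin 13 → ℤ × ℤ := ![(-4, 2), (-4, 2), (0, 0), (0, 0), (3, -2), (0, 0), (0, 0), (4, -2), (4, -2), (6, -3), (-6, 4), (-4, 3), (0, 0)]
def roleLetter : Fin 13 → Fin 7 := ![0, 0, 1, 1, 2, 1, 1, 3, 3, 4, 5, 6, 1]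
def roleSub : Fin 13 → Fin 4 → List (Fin 4) := ![
  ![[0],
    [1, 2, 3],
    [2, 1, 2, 1, 2, 1, 2],
    [3, 0, 2, 1, 2, 1, 2, 1, 2]],
  ![[1, 0, 1, 0, 1, 0, 1],
    [2, 1, 0, 1, 0, 1, 0, 1, 0, 1, 2],
    [3, 2, 1, 0],
    [1, 0, 1, 0, 1, 0, 1, 2, 1, 0, 1, 0, 1, 0, 1, 3, 2, 1, 0]],
  ![[2],
    [3, 1, 0],
    [1, 0, 1, 0, 1, 0, 1],
    [2, 3, 1, 0, 1, 0, 1, 0, 1]],
  ![[1, 0, 1, 0, 1, 0, 1],
    [2, 1, 0, 1, 0, 1, 0, 1, 0, 1, 2],
    [3, 2, 1, 0],
    [1, 0, 1, 0, 1, 0, 1, 2, 1, 0, 1, 0, 1, 0, 1, 0, 1, 2, 3]],
  ![[0, 1, 2, 3],
    [1, 0, 1, 0, 1, 0, 1],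
    [2, 1, 0, 1, 0, 1, 0, 1, 0, 1, 2],
    [3, 2, 1, 0, 1, 0, 1, 0, 1, 0, 1, 2, 1, 0, 1, 0, 1, 0, 1]],
  ![[1, 0, 1, 0, 1, 0, 1],
    [2],
    [3, 1, 0],
    [1, 0, 1, 0, 1, 3, 1, 0, 2]],
  ![[3, 2, 1, 0],
    [1, 0, 1, 0, 1, 0, 1],
    [2, 1, 0, 1, 0, 1, 0, 1, 0, 1, 2],
    [3, 2, 1, 0, 1, 0, 1, 0, 1, 0, 1, 2, 1, 0, 1, 0, 1, 0, 1]],
  ![[1, 0, 1, 0, 1, 0, 1],
    [2],
    [3, 1, 0],
    [1, 0, 1, 0, 1, 0, 1, 2, 3]],
  ![[0],
    [1],
    [2, 3],
    [3, 1, 0, 2, 3, 1, 0, 2, 3, 1, 0]],
  ![[0],
    [1],
    [2, 3],
    [0, 1, 2, 3, 3, 1, 0, 2, 3, 1, 0]],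
  ![[1],
    [2],
    [3, 0],
    [1, 2, 3, 0, 1, 2, 3, 3, 0, 2, 1]],
  ![[1],
    [2],
    [3, 0],
    [1, 2, 3, 0, 1, 2, 3, 0, 1, 2, 3]],
  ![[0],
    [1, 2, 3],
    [2, 1, 2, 1, 2, 1, 2],
    [0, 1, 2, 3, 2, 1, 2, 1, 2]]]
def roleInv : Fin 13 → Fin 4 → List (Fin 4 × Bool) := ![
  ![[(0, true)],
    [(1, true), (0, true), (2, true), (3, false), (1, true), (0, true), (2, true), (3, false), (1, true), (0, true), (2, true), (3, false), (1, true), (0, true), (2, true), (3, false), (2, false)],
    [(2, true), (3, true), (2, false), (0, false), (1, false), (3, true), (2, false), (0, false), (1, false), (3, true), (2, false), (0, false), (1, false)],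
    [(3, true), (2, false), (0, false)]],
  ![[(2, true), (3, false), (0, true), (1, true), (0, true), (2, true), (3, false), (0, true), (2, true), (3, false), (0, true), (1, true), (0, true), (2, true), (3, false), (0, true), (2, true), (3, false), (0, true), (1, true), (0, true), (2, true), (3, false), (0, true), (2, true), (3, false), (0, true), (1, true), (0, true), (2, true), (3, false)],
    [(3, true), (2, false), (0, false), (1, false), (0, false), (3, true), (2, false), (0, false), (3, true), (2, false), (0, false), (1, false), (0, false), (3, true), (2, false), (0, false), (3, true), (2, false), (0, false), (1, false), (0, false), (3, true), (2, false)],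
    [(0, false), (3, true), (2, false), (0, false)],
    [(2, true), (3, true), (2, false), (0, false), (1, false)]],
  ![[(3, false), (0, true), (1, true), (2, true), (3, false), (0, true), (1, true), (2, true), (3, false), (0, true), (1, true), (2, true), (3, false), (0, true), (1, true)],
    [(1, false), (0, false), (3, true), (2, false), (1, false), (0, false), (3, true), (2, false), (1, false), (0, false), (3, true)],
    [(0, true)],
    [(0, false), (3, true), (2, false)]],
  ![[(0, false), (1, false), (3, false), (0, true), (1, true), (2, true), (0, true), (3, false), (0, true), (1, true), (2, true), (1, false), (3, false), (0, true), (1, true), (2, true), (0, true), (3, false), (0, true), (1, true), (2, true), (1, false), (3, false), (0, true), (1, true), (2, true), (0, true), (3, false), (0, true), (1, true), (2, true), (1, false), (3, false), (0, true), (1, true), (2, true), (0, true), (3, false), (0, true), (1, true), (2, true)],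
    [(2, false), (1, false), (0, false), (3, true), (0, false), (2, false), (1, false), (0, false), (3, true), (1, true), (2, false), (1, false), (0, false), (3, true), (0, false), (2, false), (1, false), (0, false), (3, true), (1, true), (2, false), (1, false), (0, false), (3, true), (0, false), (2, false), (1, false), (0, false), (3, true), (1, true), (0, true)],
    [(0, false), (2, false), (1, false), (0, false), (3, true), (1, true)],
    [(1, false), (0, false), (3, true)]],
  ![[(0, true), (2, true), (1, true), (3, false), (1, true), (0, true), (2, true), (1, true), (3, false), (2, false), (0, true), (2, true), (1, true), (3, false), (1, true), (0, true), (2, true), (1, true), (3, false), (2, false), (0, true), (2, true), (1, true), (3, false), (1, true), (0, true), (2, true), (1, true), (3, false), (2, false), (0, true), (2, true), (1, true), (3, false), (1, true), (0, true), (2, true), (1, true), (3, false), (2, false), (1, false)],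
    [(1, true), (2, true), (3, true), (1, false), (2, false), (0, false), (1, false), (3, true), (1, false), (2, false), (0, false), (2, true), (3, true), (1, false), (2, false), (0, false), (1, false), (3, true), (1, false), (2, false), (0, false), (2, true), (3, true), (1, false), (2, false), (0, false), (1, false), (3, true), (1, false), (2, false), (0, false)],
    [(2, true), (3, true), (1, false), (2, false), (0, false), (1, false)],
    [(3, true), (1, false), (2, false)]],
  ![[(2, true), (1, true), (3, false), (0, true), (2, true), (1, true), (3, false), (0, true), (2, true), (1, true), (3, false), (0, true), (2, true), (1, true), (3, false)],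
    [(3, true), (1, false), (2, false), (0, false), (3, true), (1, false), (2, false), (0, false), (3, true), (1, false), (2, false)],
    [(1, true)],
    [(2, true), (3, true), (1, false), (2, false), (0, false)]],
  ![[(3, false), (0, true), (1, true), (2, true), (1, true), (3, false), (0, true), (1, true), (3, false), (0, true), (1, true), (2, true), (1, true), (3, false), (0, true), (1, true), (3, false), (0, true), (1, true), (2, true), (1, true), (3, false), (0, true), (1, true), (3, false), (0, true), (1, true), (2, true), (1, true), (3, false), (0, true)],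
    [(0, false), (3, true), (1, false), (2, false), (1, false), (0, false), (3, true), (1, false), (0, false), (3, true), (1, false), (2, false), (1, false), (0, false), (3, true), (1, false), (0, false), (3, true), (1, false), (2, false), (1, false), (0, false), (3, true)],
    [(1, false), (0, false), (3, true), (1, false)],
    [(3, true), (1, false), (2, false)]],
  ![[(0, false), (3, false), (0, true), (1, true), (2, true), (3, false), (0, true), (1, true), (2, true), (3, false), (0, true), (1, true), (2, true), (3, false), (0, true), (1, true), (2, true)],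
    [(2, false), (1, false), (0, false), (3, true), (2, false), (1, false), (0, false), (3, true), (2, false), (1, false), (0, false), (3, true), (0, true)],
    [(1, true)],
    [(1, false), (0, false), (3, true)]],
  ![[(0, true)],
    [(1, true)],
    [(2, true), (1, true), (0, true), (2, true), (1, true), (0, true), (2, true), (1, true), (0, true), (3, false)],
    [(3, true), (0, false), (1, false), (2, false), (0, false), (1, false), (2, false), (0, false), (1, false)]],
  ![[(0, true)],
    [(1, true)],
    [(2, true), (1, true), (0, true), (2, true), (1, true), (0, true), (3, false), (0, true), (1, true), (2, true)],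
    [(2, false), (1, false), (0, false), (3, true), (0, false), (1, false), (2, false), (0, false), (1, false)]],
  ![[(2, true), (1, true), (0, true), (3, false), (0, true), (1, true), (2, true), (0, true), (1, true), (2, true)],
    [(0, true)],
    [(1, true)],
    [(1, false), (0, false), (2, false), (1, false), (0, false), (3, true), (0, false), (1, false), (2, false)]],
  ![[(3, false), (0, true), (1, true), (2, true), (0, true), (1, true), (2, true), (0, true), (1, true), (2, true)],
    [(0, true)],
    [(1, true)],
    [(1, false), (0, false), (2, false), (1, false), (0, false), (2, false), (1, false), (0, false), (3, true)]],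
  ![[(0, true)],
    [(3, false), (0, true), (1, true), (2, true), (3, false), (0, true), (1, true), (2, true), (3, false), (0, true), (1, true), (2, true), (3, false), (0, true), (1, true)],
    [(1, false), (0, false), (3, true), (2, false), (1, false), (0, false), (3, true), (2, false), (1, false), (0, false), (3, true)],
    [(2, false), (1, false), (0, false), (3, true), (1, true)]]]
def roleEta : Fin 13 → List (Fin 4) := ![
  [],
  [1, 0, 1, 0, 1, 0, 1, 2, 1, 0, 1, 0, 1, 0, 1],
  [2, 3, 1, 0, 1, 0, 1, 0, 1],
  [1, 0, 1, 0, 1, 0, 1, 2, 1, 0, 1, 0, 1, 0, 1, 0, 1, 2, 3, 2, 1, 0, 1, 0, 1, 0, 1, 0, 1, 2, 1, 0, 1, 0, 1, 0, 1],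
  [],
  [1, 0, 1, 0, 1],
  [3, 2, 1, 0, 1, 0, 1, 0, 1, 0, 1, 2, 1, 0, 1, 0, 1, 0, 1],
  [1, 0, 1, 0, 1, 0, 1, 2, 3, 1, 0, 1, 0, 1, 0, 1],
  [],
  [0, 1, 2, 3],
  [1, 2, 3, 0, 1, 2, 3],
  [1, 2, 3, 0, 1, 2, 3, 0, 1, 2, 3],
  [0, 1, 2, 3, 2, 1, 2, 1, 2, 1, 2]]
def letSub : Fin 7 → Fin 4 → List (Fin 4 × Bool) := ![
  ![[(2, true)],
    [(3, true), (1, true), (0, true)],
    [(1, true), (0, true), (1, true), (0, true), (1, true), (0, true), (1, true)],
    [(1, false), (0, false), (3, true), (1, true), (0, true), (2, true), (1, true), (0, true), (1, true), (0, true), (1, true), (0, true), (1, true)]],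
  ![[(2, true)],
    [(3, true), (1, true), (0, true)],
    [(1, true), (0, true), (1, true), (0, true), (1, true), (0, true), (1, true)],
    [(2, true), (3, true), (1, true), (0, true), (1, true), (0, true), (1, true), (0, true), (1, true)]],
  ![[(2, true)],
    [(3, true), (1, true), (0, true)],
    [(2, false), (0, false), (1, false), (3, false), (0, true), (1, true), (2, true), (3, true), (1, true), (0, true), (1, true), (0, true), (1, true), (0, true), (1, true)],
    [(2, true), (3, true), (1, true), (0, true), (1, true), (0, true), (1, true), (0, true), (1, true)]],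
  ![[(2, true)],
    [(3, true), (1, true), (0, true)],
    [(1, true), (0, true), (1, true), (0, true), (1, true), (0, true), (1, true)],
    [(2, true), (3, true), (1, true), (0, true), (1, true), (0, true), (1, true), (0, true), (1, true), (0, true), (1, true), (2, true), (3, true), (2, false), (0, false), (1, false), (3, false)]],
  ![[(2, true), (3, true), (1, true), (0, true), (2, true), (3, false), (2, false), (1, false), (0, false)],
    [(0, true), (1, true), (2, true), (3, true), (2, false)],
    [(1, true), (0, true), (1, true), (0, true), (1, true), (0, true), (1, true)],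
    [(2, true), (3, true), (1, true), (0, true), (1, true), (0, true), (1, true), (0, true), (1, true), (0, true), (1, true), (2, true), (3, true), (0, true), (1, true), (2, true), (3, true), (2, false), (0, false), (1, false), (3, false), (3, false), (2, false), (1, false), (0, false)]],
  ![[(1, false), (0, false), (3, true), (1, true), (0, true), (2, true), (1, true), (0, true), (1, false), (0, false), (3, true), (1, true), (0, true), (2, true), (3, false), (2, false), (0, false), (1, false), (3, false)],
    [(3, true), (1, true), (0, true), (2, true), (3, true), (2, false), (0, false), (1, false), (3, false), (0, true), (1, true)],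
    [(1, true), (0, true), (1, true), (0, true), (1, true), (0, true), (1, true)],
    [(1, false), (0, false), (3, true), (1, true), (0, true), (2, true), (1, true), (0, true), (1, true), (0, true), (1, true), (0, true), (1, true), (3, true), (1, true), (0, true), (2, true), (3, true), (1, true), (0, true), (2, true), (3, true), (2, false), (0, false), (1, false), (3, false), (0, true), (1, true), (0, false), (1, false), (3, false), (2, false), (0, false), (1, false), (3, false)]],
  ![[(1, false), (0, false), (3, true), (1, true), (0, true), (2, true), (1, true), (0, true), (1, false), (0, false), (3, true), (1, true), (0, true), (2, true), (1, true), (0, true), (1, false), (0, false), (3, true), (1, true), (0, true), (2, true), (3, false), (2, false), (0, false), (1, false), (3, false), (2, false), (0, false), (1, false), (3, false)],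
    [(3, true), (1, true), (0, true), (2, true), (3, true), (1, true), (0, true), (2, true), (3, true), (2, false), (0, false), (1, false), (3, false), (0, true), (1, true), (0, false), (1, false), (2, false), (0, false), (1, false), (3, false), (0, true), (1, true)],
    [(1, true), (0, true), (1, true), (0, true), (1, true), (0, true), (1, true)],
    [(1, false), (0, false), (3, true), (1, true), (0, true), (2, true), (1, true), (0, true), (1, true), (0, true), (1, true), (0, true), (1, true), (3, true), (1, true), (0, true), (2, true), (3, true), (1, true), (0, true), (2, true), (3, true), (1, true), (0, true), (2, true), (3, true), (2, false), (0, false), (1, false), (3, false), (0, true), (1, true), (0, false), (1, false), (3, false), (2, false), (0, false), (1, false), (3, false), (2, false), (0, false), (1, false), (3, false)]]]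
def letInv : Fin 7 → Fin 4 → List (Fin 4 × Bool) := ![
  ![[(1, true), (0, true), (2, true), (3, false), (1, true), (0, true), (2, true), (3, false), (1, true), (0, true), (2, true), (3, false), (1, true), (0, true), (2, true), (3, false), (2, false)],
    [(2, true), (3, true), (2, false), (0, false), (1, false), (3, true), (2, false), (0, false), (1, false), (3, true), (2, false), (0, false), (1, false)],
    [(0, true)],
    [(1, true), (2, true), (3, true), (2, false), (0, false), (1, false), (2, false)]],
  ![[(3, false), (0, true), (1, true), (2, true), (3, false), (0, true), (1, true), (2, true), (3, false), (0, true), (1, true), (2, true), (3, false), (0, true), (1, true)],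
    [(1, false), (0, false), (3, true), (2, false), (1, false), (0, false), (3, true), (2, false), (1, false), (0, false), (3, true)],
    [(0, true)],
    [(0, false), (3, true), (2, false)]],
  ![[(1, true), (0, true), (2, true), (3, false), (1, true), (0, true), (2, true), (3, false), (1, true), (0, true), (2, true), (3, false), (3, false), (0, true), (1, true)],
    [(1, false), (0, false), (3, true), (3, true), (2, false), (0, false), (1, false), (3, true), (2, false), (0, false), (1, false)],
    [(0, true)],
    [(0, false), (3, true), (3, true), (2, false), (0, false), (1, false), (3, false), (0, true), (1, true)]],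
  ![[(2, false), (0, false), (1, false), (3, false), (0, true), (1, true), (2, true), (0, true), (1, true), (0, false), (1, false), (3, false), (0, true), (1, true), (2, true), (0, true), (1, true), (0, false), (1, false), (3, false), (0, true), (1, true), (2, true), (0, true), (1, true), (0, false), (1, false), (3, false), (0, true), (1, true), (2, true), (0, true), (1, true)],
    [(1, false), (0, false), (2, false), (1, false), (0, false), (3, true), (1, true), (0, true), (1, false), (0, false), (2, false), (1, false), (0, false), (3, true), (1, true), (0, true), (1, false), (0, false), (2, false), (1, false), (0, false), (3, true), (1, true), (0, true), (2, true)],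
    [(0, true)],
    [(0, false), (2, false), (1, false), (0, false), (3, true), (1, true), (0, true)]],
  ![[(2, false), (0, false), (1, false), (3, false), (0, true), (1, true), (2, true), (0, true), (1, true), (0, false), (1, false), (3, false), (0, true), (1, true), (2, true), (0, true), (1, true), (0, false), (1, false), (3, false), (0, true), (1, true), (2, true), (0, true), (1, true), (0, false), (1, false), (3, false), (0, true), (1, true), (2, true), (0, true), (1, true)],
    [(1, false), (0, false), (2, false), (1, false), (0, false), (3, true), (1, true), (0, true), (1, false), (0, false), (2, false), (1, false), (0, false), (3, true), (1, true), (0, true), (1, false), (0, false), (2, false), (1, false), (0, false), (3, true), (1, true), (0, true), (2, true)],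
    [(1, false), (2, false), (0, false), (1, false), (3, false), (0, true), (1, true), (2, true), (3, true), (1, true), (0, true)],
    [(0, false), (1, false), (3, false), (2, false), (1, false), (0, false), (3, true), (1, true), (0, true), (2, true), (1, true), (2, false), (1, false), (0, false), (3, true), (1, true), (0, true)]],
  ![[(2, false), (0, false), (1, false), (3, false), (0, true), (1, true), (2, true), (0, true), (1, true), (0, false), (1, false), (3, false), (0, true), (1, true), (2, true), (0, true), (1, true), (0, false), (1, false), (3, false), (0, true), (1, true), (2, true), (0, true), (1, true), (0, false), (1, false), (3, false), (0, true), (1, true), (2, true), (0, true), (1, true)],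
    [(1, false), (0, false), (2, false), (1, false), (0, false), (3, true), (1, true), (0, true), (1, false), (0, false), (2, false), (1, false), (0, false), (3, true), (1, true), (0, true), (1, false), (0, false), (2, false), (1, false), (0, false), (3, true), (1, true), (0, true), (2, true)],
    [(1, false), (0, false), (1, false), (2, false), (0, false), (1, false), (3, false), (0, true), (1, true), (2, true), (3, true), (1, true), (0, true), (2, false), (0, false), (1, false), (3, false), (0, true), (1, true), (2, true), (3, true), (1, true), (0, true)],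
    [(0, false), (1, false), (3, false), (2, false), (1, false), (0, false), (3, true), (1, true), (0, true), (2, true), (1, true), (2, false), (1, false), (0, false), (3, true), (1, true), (0, true)]],
  ![[(2, false), (0, false), (1, false), (3, false), (0, true), (1, true), (2, true), (0, true), (1, true), (0, false), (1, false), (3, false), (0, true), (1, true), (2, true), (0, true), (1, true), (0, false), (1, false), (3, false), (0, true), (1, true), (2, true), (0, true), (1, true), (0, false), (1, false), (3, false), (0, true), (1, true), (2, true), (0, true), (1, true)],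
    [(1, false), (0, false), (2, false), (1, false), (0, false), (3, true), (1, true), (0, true), (1, false), (0, false), (2, false), (1, false), (0, false), (3, true), (1, true), (0, true), (1, false), (0, false), (2, false), (1, false), (0, false), (3, true), (1, true), (0, true), (2, true)],
    [(1, false), (0, false), (1, false), (0, false), (1, false), (2, false), (0, false), (1, false), (3, false), (0, true), (1, true), (2, true), (3, true), (1, true), (0, true), (2, false), (0, false), (1, false), (3, false), (0, true), (1, true), (2, true), (3, true), (1, true), (0, true), (2, false), (0, false), (1, false), (3, false), (0, true), (1, true), (2, true), (3, true), (1, true), (0, true)],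
    [(0, false), (1, false), (3, false), (2, false), (1, false), (0, false), (3, true), (1, true), (0, true), (2, true), (0, false), (1, false), (3, false), (2, false), (1, false), (0, false), (3, true), (1, true), (0, true), (2, true), (1, true), (0, true), (1, true), (2, false), (1, false), (0, false), (3, true), (1, true), (0, true)]]]

/-- The translation part of a role. -/
def roleT (r : Fin 13) : ℝ := z3 (roleB r)

/-- The contraction `s ↦ s / λ + b` of a role. -/
def roleMap (r : Fin 13) (s : ℝ) : ℝ := s / lam + roleT r

theorem roleInvTest : ∀ r : Fin 13, invTest (fun i => posW (roleSub r i)) (roleInv r) = true := by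
  decide +kernel

/-- The automorphism of a role. -/
def roleAut (r : Fin 13) : MulAut G :=
  ofTabs (fun i => posW (roleSub r i)) (roleInv r) (roleInvTest r)

theorem letInvTest : ∀ l : Fin 7, invTest (letSub l) (letInv l) = true := by decide +kernel

/-- The automorphism of a letter (in the group of state 0). -/
def letAut (l : Fin 7) : MulAut G := ofTabs (letSub l) (letInv l) (letInvTest l)

end Pool.Agent.CircleShift
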