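import Pool.Agent.Work.MP_0fc146_gt_h31.Core

/-!
# More internal objects: special automorphisms, paths of roles, the octagon surfaces
-/

noncomputable section

open scoped Topology ENNReal UpperHalfPlane Manifold ContDiff
open Filter

namespace Pool.Agent.CircleShift

/-! ## Special automorphisms -/

/-- `u`: the automorphism of role 2 (state 0 to state 0, translation 0). -/
def uAut : MulAut G := roleAut 2

/-- The identifications `θ_j` of the group of state 0 with the group of state `j`. -/
def thAut : Fin 3 → MulAut G := ![1, roleAut 12 * (roleAut 2)⁻¹, roleAut 3 * (roleAut 2)⁻¹]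

def rhoTab : Fin 4 → List (Fin 4 × Bool) :=
  ![[(2, true)], [(3, false), (0, true), (1, true)], [(0, true)], [(2, true), (3, false), (0, true)]]

/-- The involution `ρ` with `ρ u ρ = u⁻¹`. -/
def rhoAut : MulAut G := ofTabs rhoTab rhoTab (by decide +kernel)

def psiTab : Fin 4 → List (Fin 4 × Bool) :=
  ![[(3, false), (0, true), (1, true)], [(2, false)], [(0, true)], [(1, false)]]

def psiInvTab : Fin 4 → List (Fin 4 × Bool) :=
  ![[(2, true)], [(3, false)], [(1, false)], [(2, true), (3, false), (0, false)]]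

/-- The identification `ψ` of the group of the octagon (letters `t`) with the group of state 0
(letters `g`). -/
def psiAut : MulAut G := ofTabs psiTab psiInvTab (by decide +kernel)

def thATab : Fin 4 → List (Fin 4 × Bool) :=
  ![[(1, true)], [(0, true), (1, true)], [(0, true), (1, true), (2, true)], [(3, false)]]

def thAInvTab : Fin 4 → List (Fin 4 × Bool) :=
  ![[(1, true), (0, false)], [(0, true)], [(1, false), (2, true)], [(3, false)]]

/-- The identification of the group with the letters `a` with the group of state 0. -/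
def thA : MulAut G := ofTabs thATab thAInvTab (by decide +kernel)

/-- The loop around the puncture in the letters `t` of the octagon. -/
def chat : G := FreeGroup.mk [(3, false), (2, true), (1, false), (0, true), (3, true), (2, false),
  (1, true), (0, false)]

theorem psiAut_chat : psiAut chat = thA c := by
  have h : c = FreeGroup.mk [(0, true), (1, true), (0, false), (1, false), (2, true), (3, true),
      (2, false), (3, false)] := by
    simp only [c, a, FreeGroup.of, FreeGroup.inv_mk, FreeGroup.mul_mk]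
    rfl
  rw [h]
  unfold psiAut thA chat
  rw [ofTabs_mk, ofTabs_mk]
  apply FreeGroup.reduce.exact
  decide +kernel

def rhoTTab : Fin 4 → List (Fin 4 × Bool) := ![[(3, false)], [(2, false)], [(1, false)], [(0, false)]]

/-- The involution `t_k ↦ t_{3 - k}⁻¹`. -/
def rhoT : MulAut G := ofTabs rhoTTab rhoTTab (by decide +kernel)

/-! ## Paths of roles -/

/-- `RPath j i [r_1, …, r_n]`: the source of `r_1` is `j`, the target of each role is the source of
the next one, and the target of `r_n` is `i`. -/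
inductive RPath : Fin 3 → Fin 3 → List (Fin 13) → Prop
  | nil (j : Fin 3) : RPath j j []
  | cons (r : Fin 13) (p : List (Fin 13)) (i : Fin 3) : RPath (roleTgt r) i p →
      RPath (roleSrc r) i (r :: p)

/-- The contraction of a path (`r_1` is applied first). -/
def pathMap (p : List (Fin 13)) (s : ℝ) : ℝ := p.foldl (fun s r => roleMap r s) s

/-- The automorphism of a path (the automorphism of `r_n` is applied first). -/
def pathAut (p : List (Fin 13)) : MulAut G := (p.map roleAut).prod

/-- The substitution of a path. -/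
def pathSub : List (Fin 13) → Fin 4 → List (Fin 4)
  | [], x => [x]
  | r :: p, x => (pathSub p x).flatMap (roleSub r)

/-! ## Intersection numbers on the whole line -/

/-- The intersection numbers of the points of the circle: for all `n` with `s / λ ^ n` in `K 0` we
have `VV s g = λ ^ n * V 0 (s / λ ^ n) (u⁻ⁿ g)`. -/
def VV (s : ℝ) (g : G) : ℝ :=
  lam ^ (sInf {n : ℕ | s / lam ^ n ∈ K 0}) * V 0 (s / lam ^ (sInf {n : ℕ | s / lam ^ n ∈ K 0}))
    ((uAut⁻¹ ^ (sInf {n : ℕ | s / lam ^ n ∈ K 0})) g)

/-- The intersection numbers of the point at infinity of the circle. -/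
def HH (g : G) : ℝ := V 0 0 (rhoAut g)

/-! ## Words -/

/-- All letters have the same sign. -/
def SH (w : List (Fin 4 × Bool)) : Prop := ∀ x ∈ w, ∀ y ∈ w, x.2 = y.2

/-- The reduced word of `g` is the concatenation of at most `k` words with constant sign. -/
def Pieces (k : ℕ) (g : G) : Prop :=
  ∃ L : List (List (Fin 4 × Bool)), L.length ≤ k ∧ (∀ w ∈ L, SH w) ∧ g.toWord = L.flatten

/-- The reduced word of `g` is cyclically reduced. -/
def CycRed (g : G) : Prop := FreeGroup.IsCyclicallyReduced g.toWord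

/-! ## Length data -/

/-- A length function on the Cayley graph and the corresponding (stable) translation length. -/
structure LenData (nrm len : G → ℝ) (C : ℝ) : Prop where
  nn : ∀ g, 0 ≤ nrm g
  mul : ∀ g h, nrm (g * h) ≤ nrm g + nrm h + C
  inv : ∀ g, nrm g⁻¹ ≤ nrm g + C
  gen : ∀ i, nrm (FreeGroup.of i) ≤ C
  conj : ∀ g h, len (h * g * h⁻¹) = len g
  le : ∀ g, len g ≤ nrm g + C
  pow : ∀ g, ∀ ε > 0, ∃ B, ∀ n : ℕ, nrm (g ^ n) ≤ n * (len g + ε) + B

/-- Near additivity for reduced products whose second factor has constant sign. -/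
def NA (nrm : G → ℝ) (C : ℝ) : Prop :=
  ∀ (g : G) (w : List (Fin 4 × Bool)), SH w → FreeGroup.IsReduced (g.toWord ++ w) →
    nrm g + nrm (FreeGroup.mk w) - C ≤ nrm (g * FreeGroup.mk w)

/-! ## The octagon -/

/-- The octagon with transverse coordinates `X k` at the vertices. -/
def otri (X : Fin 8 → ℝ) : Tri where
  pos t := ![0, X t, X (t + 1)]
  nb := ostri.nb
  lab t i := FreeGroup.mk (ostri.lab t i)

/-- Twice the vertices of the octagon at `S = 0`, transverse coordinate. -/
def xTab : Fin 8 → ℤ × ℤ := ![(3, 1), (-5, -3), (1, 1), (1, -1), (-3, -1), (5, 3), (-1, -1), (-1, 1)]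

/-- Twice the vertices of the octagon, longitudinal coordinate. -/
def yTab : Fin 8 → ℤ × ℤ := ![(3, -1), (-5, 3), (1, -1), (1, 1), (-3, 1), (5, -3), (-1, 1), (-1, -1)]

/-- The transverse coordinates of the octagon with parameter `S`. -/
def xw (S : ℝ) (k : Fin 8) : ℝ := z3 (xTab k) / 2 + S

/-- The longitudinal coordinates of the octagon. -/
def yw (k : Fin 8) : ℝ := z3 (yTab k) / 2

/-- The intersection numbers of the horizontal foliation of the octagon with `S = 0`. -/
def VY (g : G) : ℝ := (otri yw).V g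

theorem ostri_real (S : ℝ) : ostri.real S = otri (xw S) := by
  unfold STri.real otri
  congr 1
  funext t i
  fin_cases t <;> fin_cases i <;> simp [ostri, xw, xTab, z3]

/-- The letter of the side `k` of the octagon. -/
def Tl (k : Fin 8) : G := FreeGroup.mk (ostri.lab k 0)

/-- The oriented area of the parallelogram spanned by `u` and `v`. -/
def cross (u v : ℂ) : ℝ := u.re * v.im - u.im * v.re

/-- The octagon with vertices `w 0, …, w 7`, star shaped around `0`, with total angle `6 π` at `0`
and total angle `2 π` at the vertices; side `k + 4` (from `w (k + 4)` to `w (k + 5)`) is glued to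
side `k` by the translation `tau (Tl k)`. -/
structure OctData where
  w : Fin 8 → ℂ
  tau : G → ℂ
  tau_mul : ∀ g h, tau (g * h) = tau g + tau h
  glue : ∀ k, w k = w (k + 5) + tau (Tl k)
  area : ∀ k, 0 < cross (w k) (w (k + 1))
  im_ne : ∀ k, (w k).im ≠ 0
  turns : (Finset.univ.filter (fun k : Fin 8 => (w k).im < 0 ∧ 0 < (w (k + 1)).im)).card = 3
  side_ne : ∀ k, (w (k + 1)).im ≠ (w k).im
  /-- the directions of the edges at the puncture: sides `k` and spokes, for `k = 0, 3, 6, …` -/
  turns' : (Finset.univ.filter (fun i : Fin 8 => (w (3 * i + 1) - w (3 * i)).im < 0 ∧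
      0 < (-w (3 * i)).im)).card +
    (Finset.univ.filter (fun i : Fin 8 => (-w (3 * i)).im < 0 ∧
      0 < (w (3 * (i + 1) + 1) - w (3 * (i + 1))).im)).card = 1
  disc : ∃ δ > 0, ∀ g, tau g ≠ 0 → δ ≤ ‖tau g‖
  lat : ∀ (k : Fin 8) (g : G) (b c : ℝ), 0 ≤ b → 0 ≤ c → b + c ≤ 1 →
    b * w k + c * w (k + 1) = tau g → tau g = 0
  puncture : ∀ g, w 0 ≠ tau g

/-- The closed triangle without two of its vertices; `d.1` and `d.2` are the weights of the two
missing vertices. -/
def Tset : Set (ℝ × ℝ) := {d | 0 ≤ d.1 ∧ 0 ≤ d.2 ∧ d.1 + d.2 ≤ 1 ∧ d.1 ≠ 1 ∧ d.2 ≠ 1}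

/-- `U` is the union of the triangles `pt h k`, `h : G`, `k : Fin 8`, glued as in the universal
covering of the punctured surface. -/
structure OctTree (U : Type) [TopologicalSpace U] [MulAction G U]
    (pt : G → Fin 8 → ℝ × ℝ → U) : Prop where
  smul : ∀ g h k d, g • pt h k d = pt (g * h) k d
  surj : ∀ u, ∃ h k, ∃ d ∈ Tset, pt h k d = u
  center : ∀ h k k', pt h k (0, 0) = pt h k' (0, 0)
  spoke : ∀ h k b, 0 ≤ b → b < 1 → pt h (k + 1) (b, 0) = pt h k (0, b)
  side : ∀ h k b, 0 < b → b < 1 → pt h k (b, 1 - b) = pt (h * Tl k) (k + 4) (1 - b, b)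
  inj : ∀ h k d h' k' d', d ∈ Tset → d' ∈ Tset → pt h k d = pt h' k' d' →
    (h = h' ∧ k = k' ∧ d = d') ∨
    (h = h' ∧ d = (0, 0) ∧ d' = (0, 0)) ∨
    (h = h' ∧ k' = k + 1 ∧ d.1 = 0 ∧ d' = (d.2, 0)) ∨
    (h = h' ∧ k = k' + 1 ∧ d'.1 = 0 ∧ d = (d'.2, 0)) ∨
    (h' = h * Tl k ∧ k' = k + 4 ∧ d.1 + d.2 = 1 ∧ d' = (d.2, d.1))
  emb : ∀ h k, Topology.IsClosedEmbedding (fun d : Tset => pt h k d)
  lf : LocallyFinite (fun x : G × Fin 8 => pt x.1 x.2 '' Tset)

/-- `D` is the developing map of the octagon `W`. -/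
def IsDev {U : Type} (pt : G → Fin 8 → ℝ × ℝ → U) (W : OctData) (D : U → ℂ) : Prop :=
  ∀ h k, ∀ d ∈ Tset, D (pt h k d) = W.tau h + d.1 * W.w k + d.2 * W.w (k + 1)

/-- The intersection number of `g` with the foliation of the lines of constant `Re D`. -/
def vgeo {U : Type} [TopologicalSpace U] [MulAction G U] (D : U → ℂ) (g : G) : ℝ≥0∞ :=
  ⨅ (u : U) (p : Path u (g • u)), eVariationOn (fun s : unitInterval => (D (p s)).re) Set.univ

/-- The properties of the developing map which determine the surface. -/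
structure BrData (U : Type) [TopologicalSpace U] [MulAction G U] (D : U → ℂ) (tau : G → ℂ)
    (C₀ : U) (q₀ : ℂ) : Prop where
  cont : Continuous D
  tau_mul : ∀ g h, tau (g * h) = tau g + tau h
  equiv : ∀ g u, D (g • u) = D u + tau g
  zero : D C₀ = 0
  disc : ∃ δ > 0, ∀ g, tau g ≠ 0 → δ ≤ ‖tau g‖
  puncture : ∀ g, q₀ ≠ tau g
  /-- `D` is a local homeomorphism away from the cone points -/
  loc : ∀ u, (∀ g : G, u ≠ g • C₀) → ∃ e : OpenPartialHomeomorph U ℂ, u ∈ e.source ∧
    ∀ y ∈ e.source, e y = D y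
  /-- and a cube of a chart at the cone points -/
  cone : ∃ e : OpenPartialHomeomorph U ℂ, C₀ ∈ e.source ∧ e C₀ = 0 ∧ ∀ y ∈ e.source, (e y) ^ 3 = D y
  /-- only cone points lie over the lattice -/
  fib : ∀ u g, D u = tau g → ∃ g' : G, u = g' • C₀
  /-- cocompactness away from the punctures -/
  cpt : ∀ η > 0, ∃ Kc : Set U, IsCompact Kc ∧ ∀ u, (∀ g, η ≤ ‖D u - (q₀ + tau g)‖) →
    ∃ g : G, g • u ∈ Kc
  /-- the punctures -/
  punct : ∃ (r : ℝ) (j : ℍ → U), 0 < r ∧ Continuous j ∧
    (∀ z : ℍ, D (j z) = q₀ + r * Complex.exp (2 * Real.pi * Complex.I * z)) ∧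
    (∀ z : ℍ, j ((1 : ℝ) +ᵥ z) = chat • j z) ∧
    ∀ u g, 0 < ‖D u - (q₀ + tau g)‖ → ‖D u - (q₀ + tau g)‖ < r →
      (∃ (g' : G) (z : ℍ), tau g' = tau g ∧ u = g' • j z) ∨
      (∃ s : ℂ → U, ContinuousOn s (Metric.ball (q₀ + tau g) r) ∧
        (∀ y ∈ Metric.ball (q₀ + tau g) r, D (s y) = y) ∧ s (D u) = u)

/-! ## The hyperbolic octagon -/

/-- The representation of the hyperbolic octagon surface. -/
def xrep : G →* Matrix.SpecialLinearGroup (Fin 2) ℤ := FreeGroup.lift
  ![⟨!![5, -2; -2, 1], by decide +kernel⟩, ⟨!![5, -3; -3, 2], by decide +kernel⟩,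
    ⟨!![2, -3; -3, 5], by decide +kernel⟩, ⟨!![1, -2; -2, 5], by decide +kernel⟩]

/-- The action of `G` on the upper half plane. -/
instance xact : MulAction G ℍ := MulAction.compHom ℍ xrep

/-- Hyperbolic displacement of the base point. -/
def xnrm (g : G) : ℝ := dist UpperHalfPlane.I (g • UpperHalfPlane.I)

/-- Hyperbolic translation length. -/
def xlen (g : G) : ℝ := ⨅ z : ℍ, dist z (g • z)

end Pool.Agent.CircleShift
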