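import Mathlib

/-!
# MP_0fc146_gt : definitions for the final statement

The surface is `S = S_{2,1}` (genus two, one puncture).  Its fundamental group is the free group
`G` on `a 0, a 1, a 2, a 3`, and the conjugacy class of `c = [a 0, a 1] [a 2, a 3]` is the class of
the loop around the puncture.
-/

noncomputable section

open scoped Manifold ContDiff UpperHalfPlane ENNReal Topology
open UpperHalfPlane Filter

namespace Pool.Agent.CircleShift

/-! ## The group, marked surfaces, Teichmuller space -/

/-- The fundamental group of `S_{2,1}`, a free group of rank four. -/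
abbrev G : Type := FreeGroup (Fin 4)

/-- The free generators. -/
def a (i : Fin 4) : G := FreeGroup.of i

/-- The loop around the puncture, `[a 0, a 1] [a 2, a 3]`. -/
def c : G := (a 0 * a 1 * (a 0)⁻¹ * (a 1)⁻¹) * (a 2 * a 3 * (a 2)⁻¹ * (a 3)⁻¹)

/-- `g` is (freely homotopic to) a power of the loop around the puncture. -/
def IsPeripheral (g : G) : Prop := ∃ (h : G) (n : ℤ), g = h * c ^ n * h⁻¹

/-- A marked complex structure on `S_{2,1}`, presented by its universal covering `U` with the action
of the deck group `G`.  The field `cusp` says that there is a holomorphic map of the punctured disc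
`ℍ / ℤ` into the surface which sends the loop around the missing point to the loop `c`. -/
structure MarkedSurface where
  U : Type
  [top : TopologicalSpace U]
  [t2 : T2Space U]
  [sc : SimplyConnectedSpace U]
  [charts : ChartedSpace ℂ U]
  [mfd : IsManifold 𝓘(ℂ) ω U]
  [act : MulAction G U]
  [pd : ProperlyDiscontinuousSMul G U]
  free : ∀ (g : G) (u : U), g • u = u → g = 1
  holo : ∀ g : G, ContMDiff 𝓘(ℂ) 𝓘(ℂ) ω (fun u : U => g • u)
  cusp : ∃ j : ℍ → U, ContMDiff 𝓘(ℂ) 𝓘(ℂ) ω j ∧ ∀ z : ℍ, j ((1 : ℝ) +ᵥ z) = c • j z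

attribute [instance] MarkedSurface.top MarkedSurface.t2 MarkedSurface.sc MarkedSurface.charts
  MarkedSurface.mfd MarkedSurface.act MarkedSurface.pd

/-- Two marked surfaces are the same point of Teichmuller space if there is an equivariant
biholomorphic map of their universal coverings. -/
def MarkedSurface.Rel (X Y : MarkedSurface) : Prop :=
  ∃ e : X.U ≃ Y.U, ContMDiff 𝓘(ℂ) 𝓘(ℂ) ω e ∧ ContMDiff 𝓘(ℂ) 𝓘(ℂ) ω e.symm ∧
    ∀ (g : G) (u : X.U), e (g • u) = g • e u

theorem MarkedSurface.Rel.equivalence : Equivalence MarkedSurface.Rel where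
  refl X := ⟨Equiv.refl _, contMDiff_id, contMDiff_id, fun _ _ => rfl⟩
  symm := by
    rintro X Y ⟨e, h1, h2, h3⟩
    refine ⟨e.symm, h2, h1, fun g u => ?_⟩
    apply e.injective
    rw [h3]; simp
  trans := by
    rintro X Y Z ⟨e, h1, h2, h3⟩ ⟨f, k1, k2, k3⟩
    exact ⟨e.trans f, k1.comp h1, h2.comp k2, fun g u => by simp [h3, k3]⟩

instance MarkedSurface.setoid : Setoid MarkedSurface := ⟨MarkedSurface.Rel, Rel.equivalence⟩

/-- Teichmuller space of `S_{2,1}`. -/
def Teich : Type 1 := Quotient MarkedSurface.setoid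

/-! ## The mapping class group and its action -/

/-- The automorphisms of `G` which preserve the class of the (oriented) loop around the puncture. -/
def AutS : Subgroup (MulAut G) where
  carrier := {φ | IsConj (φ c) c}
  mul_mem' := by
    intro φ ψ hφ hψ
    have h1 : IsConj (φ (ψ c)) (φ c) := by
      obtain ⟨d, hd⟩ := isConj_iff.1 hψ
      exact isConj_iff.2 ⟨φ d, by rw [← map_inv, ← map_mul, ← map_mul, hd]⟩
    exact h1.trans hφ
  one_mem' := IsConj.refl _
  inv_mem' := by
    intro φ hφ
    obtain ⟨d, hd⟩ := isConj_iff.1 hφ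
    refine isConj_iff.2 ⟨(φ⁻¹ d)⁻¹, ?_⟩
    have h2 : φ⁻¹ (d * φ c * d⁻¹) = φ⁻¹ c := by rw [hd]
    rw [map_mul, map_mul, map_inv] at h2
    have h3 : φ⁻¹ (φ c) = c := MulAut.inv_apply_self G φ c
    rw [h3] at h2
    rw [← h2]; group

/-- The inner automorphisms, as a subgroup of `AutS`. -/
def InnS : Subgroup AutS := (MulAut.conj : G →* MulAut G).range.subgroupOf AutS

/-- The mapping class group of `S_{2,1}` (Dehn-Nielsen-Baer theorem). -/
abbrev Mod : Type := AutS ⧸ InnS

/-- The action of `G` with the marking changed by `χ`. -/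
@[reducible] def MarkedSurface.reAct (X : MarkedSurface) (χ : MulAut G) : MulAction G X.U where
  smul := fun g u => χ g • u
  one_smul := fun u => by
    change χ 1 • u = u
    rw [map_one, one_smul]
  mul_smul := fun g h u => by
    change χ (g * h) • u = χ g • χ h • u
    rw [map_mul, mul_smul]

/-- The same surface with the marking changed by `χ`. -/
def MarkedSurface.remark (X : MarkedSurface) (χ : MulAut G) (hχ : χ ∈ AutS) : MarkedSurface :=
  { U := X.U
    act := X.reAct χ
    pd := @ProperlyDiscontinuousSMul.mk G X.U _ (X.reAct χ).toSMul (by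
      intro K L hK hL
      exact (X.pd.finite_disjoint_inter_image hK hL).preimage
        (f := χ) (χ.injective.injOn))
    free := fun g u h => by
      have h1 : χ g = 1 := X.free (χ g) u h
      exact (map_eq_one_iff χ χ.injective).1 h1
    holo := fun g => X.holo (χ g)
    cusp := by
      obtain ⟨j, hj, hj1⟩ := X.cusp
      obtain ⟨d, hd⟩ := isConj_iff.1 hχ
      refine ⟨fun z => d⁻¹ • j z, (X.holo d⁻¹).comp hj, fun z => ?_⟩
      change d⁻¹ • j _ = χ c • (d⁻¹ • j z)
      have h2 : χ c = d⁻¹ * c * d := by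
        rw [mul_inv_eq_iff_eq_mul] at hd
        rw [mul_assoc, ← hd, inv_mul_cancel_left]
      rw [hj1, h2]
      simp only [← mul_smul]
      congr 1
      group }

theorem MarkedSurface.remark_congr (φ ψ : AutS) (h : QuotientGroup.leftRel InnS φ ψ)
    (X Y : MarkedSurface) (hXY : X.Rel Y) :
    (X.remark (φ⁻¹ : AutS).1 (φ⁻¹ : AutS).2).Rel (Y.remark (ψ⁻¹ : AutS).1 (ψ⁻¹ : AutS).2) := by
  obtain ⟨e, h1, h2, h3⟩ := hXY
  rw [QuotientGroup.leftRel_apply, InnS, Subgroup.mem_subgroupOf] at h
  obtain ⟨k, hk⟩ := h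
  have hk' : ∀ g : G, φ⁻¹.1 g = k * (ψ⁻¹.1 g) * k⁻¹ := by
    intro g
    have h4 : φ⁻¹.1 = MulAut.conj k * ψ⁻¹.1 := by
      rw [hk]
      simp
    rw [h4, MulAut.mul_apply, MulAut.conj_apply]
  refine ⟨⟨fun u => (k⁻¹ • e (show X.U from u) : Y.U),
    fun u => e.symm (k • (show Y.U from u) : Y.U), fun u => ?_, fun u => ?_⟩,
    (Y.holo k⁻¹).comp h1, h2.comp (Y.holo k), fun g u => ?_⟩
  · change e.symm (k • k⁻¹ • e (show X.U from u)) = u
    rw [smul_inv_smul, Equiv.symm_apply_apply]
  · change k⁻¹ • e (e.symm (k • (show Y.U from u))) = u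
    rw [Equiv.apply_symm_apply, inv_smul_smul]
  · change k⁻¹ • e (φ⁻¹.1 g • (show X.U from u)) = ψ⁻¹.1 g • (k⁻¹ • e (show X.U from u))
    rw [h3, hk', ← mul_smul, ← mul_smul]
    congr 1
    group

/-- The action of the mapping class group on Teichmuller space: the class of `φ` changes the marking
by `φ⁻¹`. -/
def act : Mod → Teich → Teich :=
  Quotient.map₂ (fun (φ : AutS) (X : MarkedSurface) => X.remark (φ⁻¹ : AutS).1 (φ⁻¹ : AutS).2)
    (fun φ ψ h X Y hXY => MarkedSurface.remark_congr φ ψ h X Y hXY)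

/-! ## Hyperbolic lengths and the Thurston compactification -/

/-- The length of the closed hyperbolic geodesic (zero for a cusp) in the class of `g`: the infimum
of the hyperbolic distances of points `p, q` of `ℍ` such that `f q = g • f p` for some holomorphic
`f : ℍ → U`.  (By the uniformisation theorem and the lemma of Schwarz and Pick this is the
translation length of `g` in the hyperbolic metric.) -/
def MarkedSurface.hypLen (X : MarkedSurface) (g : G) : ℝ≥0∞ :=
  ⨅ (f : ℍ → X.U) (_ : ContMDiff 𝓘(ℂ) 𝓘(ℂ) ω f) (p : ℍ) (q : ℍ) (_ : f q = g • f p),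
    ENNReal.ofReal (dist p q)

/-- The thick part: all closed geodesics have length at least `ε`. -/
def MarkedSurface.IsThick (X : MarkedSurface) (ε : ℝ) : Prop :=
  ∀ g : G, ¬ IsPeripheral g → ENNReal.ofReal ε ≤ X.hypLen g

theorem MarkedSurface.hypLen_le_of_rel {X Y : MarkedSurface} (h : X.Rel Y) (g : G) :
    Y.hypLen g ≤ X.hypLen g := by
  obtain ⟨e, h1, h2, h3⟩ := h
  unfold MarkedSurface.hypLen
  refine le_iInf fun f => le_iInf fun hf => le_iInf fun p => le_iInf fun q => le_iInf fun hq => ?_
  exact iInf_le_of_le (e ∘ f) (iInf_le_of_le (h1.comp hf) (iInf_le_of_le p (iInf_le_of_le q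
    (iInf_le_of_le (by simp [hq, h3]) le_rfl))))

/-- The hyperbolic length function of a point of Teichmuller space. -/
def Teich.hypLen (x : Teich) : G → ℝ≥0∞ :=
  Quotient.lift (fun X : MarkedSurface => X.hypLen)
    (fun _ _ h => funext fun g => le_antisymm
      (MarkedSurface.hypLen_le_of_rel (MarkedSurface.Rel.equivalence.symm h) g)
      (MarkedSurface.hypLen_le_of_rel h g)) x

/-- Functions on `G` up to positive factors.  (Besides the nonzero functions up to positive factors
it has one more point, the class of `0`, whose only neighbourhood is the whole space.) -/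
def projSetoid : Setoid (G → ℝ) where
  r f g := ∃ r : ℝ, 0 < r ∧ g = r • f
  iseqv :=
    { refl := fun f => ⟨1, one_pos, by simp⟩
      symm := by
        rintro f g ⟨r, hr, rfl⟩
        exact ⟨r⁻¹, inv_pos.2 hr, by rw [smul_smul, inv_mul_cancel₀ hr.ne', one_smul]⟩
      trans := by
        rintro f g h ⟨r, hr, rfl⟩ ⟨s, hs, rfl⟩
        exact ⟨s * r, mul_pos hs hr, by rw [smul_smul]⟩ }

/-- The projective space of functions on `G`, which contains the Thurston compactification of the
Teichmuller space. -/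
def PLen : Type := Quotient projSetoid

/-- The class of a function. -/
def PLen.mk (f : G → ℝ) : PLen := Quotient.mk projSetoid f

/-- `G → ℝ` carries the product topology and `PLen` the quotient topology. -/
instance : TopologicalSpace PLen := inferInstanceAs (TopologicalSpace (Quotient projSetoid))

/-- The embedding of the Teichmuller space by hyperbolic lengths. -/
def Teich.toPLen (x : Teich) : PLen := PLen.mk (fun g => (x.hypLen g).toReal)

/-! ## Teichmuller rays and cobounded foliations -/

/-- The Teichmuller ray `t ↦ X t`, `t ≥ 0`, of the square of an abelian differential `dD` on `X 0`: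
`D t` is a primitive, on the universal covering of `X t`, of the abelian differential on `X t`, and
the Teichmuller map `h t : X 0 → X t` stretches `Re D` by `exp t` and `Im D` by `exp (-t)`.
The field `cusp` says that the differential is regular at the puncture. -/
structure TeichRay where
  X : ℝ → MarkedSurface
  D : ∀ t, (X t).U → ℂ
  holo : ∀ t, ContMDiff 𝓘(ℂ) 𝓘(ℂ) ω (D t)
  per : ∃ τ : G → ℂ, ∀ (g : G) (u : (X 0).U), D 0 (g • u) = D 0 u + τ g
  nonconst : ∃ u v : (X 0).U, D 0 u ≠ D 0 v
  cusp : ∃ j : ℍ → (X 0).U, ContMDiff 𝓘(ℂ) 𝓘(ℂ) ω j ∧ (∀ z : ℍ, j ((1 : ℝ) +ᵥ z) = c • j z) ∧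
    ∃ B : ℝ, ∀ z : ℍ, 1 ≤ z.im → ‖D 0 (j z)‖ ≤ B
  h : ∀ t, (X 0).U ≃ₜ (X t).U
  equiv : ∀ (t : ℝ) (g : G) (u : (X 0).U), h t (g • u) = g • h t u
  stretch : ∀ (t : ℝ) (u : (X 0).U),
    D t (h t u) = ⟨Real.exp t * (D 0 u).re, Real.exp (-t) * (D 0 u).im⟩

/-- The intersection number of `g` with the vertical foliation (the leaves are the lines of constant
`Re D`, the transverse measure is the variation of `Re D`): the infimum over all closed curves in the
class of `g` of the total variation of `Re D`. -/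
def TeichRay.vert (R : TeichRay) (g : G) : ℝ≥0∞ :=
  ⨅ (u : (R.X 0).U) (p : Path u (g • u)),
    eVariationOn (fun s : unitInterval => (R.D 0 (p s)).re) Set.univ

/-- The vertical foliation as a point of `PLen`. -/
def TeichRay.foliation (R : TeichRay) : PLen := PLen.mk (fun g => (R.vert g).toReal)

/-- The `ε`-cobounded foliations (among those of squares of abelian differentials). -/
def COB (ε : ℝ) : Set PLen :=
  {l | ∃ R : TeichRay, (∃ t₀ : ℝ, ∀ t ≥ t₀, (R.X t).IsThick ε) ∧ R.foliation = l}

/-! ## Shifts of finite type -/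

/-- The set `A_n(x)` of all `s_n ⋯ s_1 x = s_n (⋯ (s_2 (s_1 x)))` with `s_i ∈ F` and `(s_i, s_{i+1}) ∈ P`. -/
def shiftSet (F : Set Mod) (P : Set (Mod × Mod)) (x : Teich) (n : ℕ) : Set Teich :=
  {y | ∃ s : Fin n → Mod, (∀ i, s i ∈ F) ∧
    (∀ i j : Fin n, i.val + 1 = j.val → (s i, s j) ∈ P) ∧
    y = (List.ofFn s).foldl (fun z t => act t z) x}

/-- Convergence of sets in the Hausdorff (Vietoris) topology to the compact set `C`. -/
def HausdorffLim (A : ℕ → Set PLen) (C : Set PLen) : Prop :=
  IsCompact C ∧ (∀ V : Set PLen, IsOpen V → C ⊆ V → ∀ᶠ n in atTop, A n ⊆ V) ∧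
    (∀ V : Set PLen, IsOpen V → (C ∩ V).Nonempty → ∀ᶠ n in atTop, (A n ∩ V).Nonempty)

/-- The final statement: a positive answer to Q1. -/
def FinalStatement : Prop :=
  ∃ (F : Set Mod) (P : Set (Mod × Mod)) (x : Teich) (ε : ℝ) (C : Set PLen),
    F.Finite ∧ P ⊆ F ×ˢ F ∧ 0 < ε ∧
    HausdorffLim (fun n => Teich.toPLen '' shiftSet F P x n) C ∧
    Nonempty (C ≃ₜ Circle) ∧ C ⊆ COB ε

end Pool.Agent.CircleShift
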