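import Pool.Agent.Work.MP_0fc146_gt_h31.Interface

/-!
# Block Geo: Teichmuller rays from the octagons
-/

noncomputable section

open scoped Topology ENNReal UpperHalfPlane Manifold ContDiff
open Filter

namespace Pool.Agent.CircleShift

namespace GeoAux

theorem Tl_val (k : Fin 4) : Tl (k.castLE (by norm_num)) = FreeGroup.of k := by
  fin_cases k <;> rfl

theorem tau_one' (W : OctData) : W.tau 1 = 0 := by
  have := W.tau_mul 1 1
  rw [mul_one] at this
  simpa using this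

/-- `tau` as a homomorphism. -/
def tauHom (W : OctData) : G →* Multiplicative ℂ where
  toFun g := Multiplicative.ofAdd (W.tau g)
  map_one' := by rw [tau_one' W]; rfl
  map_mul' g h := by rw [W.tau_mul]; rfl

theorem tau_scale (W W' : OctData) (a b : ℝ)
    (hw : ∀ k, W'.w k = ⟨a * (W.w k).re, b * (W.w k).im⟩) (g : G) :
    W'.tau g = ⟨a * (W.tau g).re, b * (W.tau g).im⟩ := by
  let F : G →* Multiplicative ℂ :=
    { toFun := fun g => Multiplicative.ofAdd (⟨a * (W.tau g).re, b * (W.tau g).im⟩ : ℂ)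
      map_one' := by
        rw [tau_one' W]
        have : (⟨a * (0 : ℂ).re, b * (0 : ℂ).im⟩ : ℂ) = 0 := by
          apply Complex.ext <;> simp
        rw [this]; rfl
      map_mul' := fun g h => by
        rw [W.tau_mul, ← ofAdd_add]
        congr 1
        apply Complex.ext <;> simp [mul_add] }
  have h : tauHom W' = F := by
    apply FreeGroup.ext_hom
    intro k
    change Multiplicative.ofAdd (W'.tau (FreeGroup.of k)) =
      Multiplicative.ofAdd (⟨a * (W.tau (FreeGroup.of k)).re, b * (W.tau (FreeGroup.of k)).im⟩ : ℂ)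
    congr 1
    rw [← Tl_val k]
    have h1 := W.glue (k.castLE (by norm_num))
    have h2 := W'.glue (k.castLE (by norm_num))
    rw [hw, hw, h1] at h2
    have h3 : W'.tau (Tl (k.castLE (by norm_num))) =
        (⟨a * (W.w (k.castLE (by norm_num) + 5) + W.tau (Tl (k.castLE (by norm_num)))).re,
          b * (W.w (k.castLE (by norm_num) + 5) + W.tau (Tl (k.castLE (by norm_num)))).im⟩ : ℂ) -
        ⟨a * (W.w (k.castLE (by norm_num) + 5)).re, b * (W.w (k.castLE (by norm_num) + 5)).im⟩ := by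
      rw [h2]; ring
    rw [h3]
    apply Complex.ext <;> simp <;> ring
  have h4 : tauHom W' g = F g := by rw [h]
  exact Multiplicative.ofAdd.injective h4

theorem brData_of {U : Type} [TopologicalSpace U] [T2Space U] [MulAction G U]
    {pt : G → Fin 8 → ℝ × ℝ → U} (hO : OctTree U pt) {W : OctData} {D : U → ℂ}
    (hD : IsDev pt W D) (hDC : Stmt_DevCont) (hLoc : Stmt_Loc) (hCone : Stmt_Cone)
    (hFib : Stmt_Fib) (hP : Stmt_Punct) : BrData U D W.tau (pt 1 0 (0, 0)) (W.w 0) where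
  cont := (hDC U pt hO W D hD).1
  tau_mul := W.tau_mul
  equiv := (hDC U pt hO W D hD).2
  zero := by
    have h := hD 1 0 (0, 0) (by simp [Tset])
    rw [h, tau_one' W]
    simp
  disc := W.disc
  puncture := W.puncture
  loc := hLoc U pt hO W D hD
  cone := hCone U pt hO W D hD
  fib := (hFib U pt hO W D hD).1
  cpt := (hFib U pt hO W D hD).2.2
  punct := hP U pt hO W D hD

theorem dev_scale {U : Type} [TopologicalSpace U] [MulAction G U]
    {pt : G → Fin 8 → ℝ × ℝ → U} (hO : OctTree U pt) {W W' : OctData} {D D' : U → ℂ}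
    (hD : IsDev pt W D) (hD' : IsDev pt W' D') (a b : ℝ)
    (hw : ∀ k, W'.w k = ⟨a * (W.w k).re, b * (W.w k).im⟩) (u : U) :
    D' u = ⟨a * (D u).re, b * (D u).im⟩ := by
  obtain ⟨h, k, d, hd, rfl⟩ := hO.surj u
  rw [hD h k d hd, hD' h k d hd, tau_scale W W' a b hw, hw, hw]
  apply Complex.ext
  · simp; ring
  · simp; ring

/-- The general step. -/
theorem geo_step {R : ℝ} {ε : ℝ}
    (hAG : ∀ (U : Type) [TopologicalSpace U] [T2Space U]
      [SimplyConnectedSpace U] [MulAction G U] [ProperlyDiscontinuousSMul G U] (D : ℝ → U → ℂ)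
      (tau : ℝ → G → ℂ) (C₀ : U) (q₀ : ℝ → ℂ), (∀ g : G, Continuous (fun u : U => g • u)) →
      (∀ (g : G) (u : U), g • u = u → g = 1) → (∀ t, BrData U (D t) (tau t) C₀ (q₀ t)) →
      (∀ t u, D t u = ⟨Real.exp t * (D 0 u).re, Real.exp (-t) * (D 0 u).im⟩) →
      (∀ t g, tau t g ≠ 0 → √2 ≤ ‖tau t g‖) → (∀ t, ∀ x : ℂ, ∃ g, ‖x - tau t g‖ ≤ R) →
      ∀ χ : MulAut G, IsConj (χ c) chat →
        ∃ Ry : TeichRay, (∀ t, (Ry.X t).IsThick ε) ∧ ∀ g, Ry.vert g = vgeo (D 0) (χ g))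
    {pt : G → Fin 8 → ℝ × ℝ → ℍ} (hO : OctTree ℍ pt) (hAct : Stmt_Act) (hDev : Stmt_Dev)
    (hDC : Stmt_DevCont) (hLoc : Stmt_Loc) (hCone : Stmt_Cone) (hFib : Stmt_Fib)
    (hP : Stmt_Punct) (hV : Stmt_VGeo) (χ : MulAut G) (hχ : IsConj (χ c) chat)
    (W : ℝ → OctData) (p q : Fin 8 → ℝ)
    (hW : ∀ t k, (W t).w k = ⟨Real.exp t * p k, Real.exp (-t) * q k⟩)
    (hmin : ∀ t g, (W t).tau g ≠ 0 → √2 ≤ ‖(W t).tau g‖)
    (hcov : ∀ t, ∀ x : ℂ, ∃ g, ‖x - (W t).tau g‖ ≤ R) :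
    ∃ Ry : TeichRay, (∀ t, (Ry.X t).IsThick ε) ∧
      ∀ g, Ry.vert g = ENNReal.ofReal ((otri p).V (χ g)) := by
  obtain ⟨hA1, hA2, hA3⟩ := hAct ℍ pt hO
  have := hA3
  choose D hD using fun t => hDev ℍ pt hO (W t)
  have hw0 : ∀ t k, (W t).w k = ⟨Real.exp t * ((W 0).w k).re, Real.exp (-t) * ((W 0).w k).im⟩ := by
    intro t k
    rw [hW t k, hW 0 k]
    simp
  obtain ⟨Ry, h1, h2⟩ := hAG ℍ D (fun t => (W t).tau) (pt 1 0 (0, 0)) (fun t => (W t).w 0) hA1 hA2
    (fun t => brData_of hO (hD t) hDC hLoc hCone hFib hP)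
    (fun t u => dev_scale hO (hD 0) (hD t) _ _ (hw0 t) u) hmin hcov χ hχ
  refine ⟨Ry, h1, fun g => ?_⟩
  rw [h2, hV ℍ pt hO (W 0) (D 0) (hD 0)]
  have : (fun k => ((W 0).w k).re) = p := by
    funext k
    rw [hW 0 k]
    simp
  rw [this]

end GeoAux

open GeoAux

theorem stmt_Geo (hTree : Stmt_Tree) (hAct : Stmt_Act) (hOct : Stmt_Oct) (hDev : Stmt_Dev)
    (hDC : Stmt_DevCont) (hLoc : Stmt_Loc) (hCone : Stmt_Cone) (hFib : Stmt_Fib)
    (hP : Stmt_Punct) (hV : Stmt_VGeo) (hAG : Stmt_AG) : Stmt_Geo := by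
  obtain ⟨R, hR⟩ := hOct
  obtain ⟨ε, hε, hAG⟩ := hAG R
  obtain ⟨pt, hO⟩ := hTree
  refine ⟨ε, hε, fun χ hχ => ⟨fun S hS => ?_, ?_⟩⟩
  · choose W hW hmin hcov using fun t => (hR t).1 S hS
    have h := geo_step hAG hO hAct hDev hDC hLoc hCone hFib hP hV χ hχ W (xw S) yw hW hmin hcov
    rw [← ostri_real] at h
    exact h
  · choose W hW hmin hcov using fun t => (hR t).2
    exact geo_step hAG hO hAct hDev hDC hLoc hCone hFib hP hV χ hχ W yw (fun k => -xw 0 k) hW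
      hmin hcov

end Pool.Agent.CircleShift
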