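import Pool.Agent.Work.MP_0fc146_gt_h31.Interface
import Pool.Agent.Work.MP_0fc146_gt_98.Num

/-!
# Block GeoV: all points of the circle are cobounded
-/

noncomputable section

open scoped Topology ENNReal UpperHalfPlane Manifold ContDiff
open Filter

namespace Pool.Agent.CircleShift

namespace TopAux

theorem VV_pow (hVV : Stmt_VV) (m : ℕ) (s : ℝ) (g : G) :
    VV (lam ^ m * s) g = lam ^ m * VV s ((uAut⁻¹ ^ m) g) := by
  induction m generalizing g with
  | zero => simp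
  | succ m ih =>
    rw [pow_succ', mul_assoc, hVV.2.1, ih, mul_assoc]
    congr 2

theorem uconj_mem (hPer : Stmt_Per) (m : ℕ) : thA⁻¹ * (uAut⁻¹ ^ m) * thA ∈ AutS := by
  have h := hPer.2.1
  have h2 : thA⁻¹ * (uAut⁻¹ ^ m) * thA = ((thA⁻¹ * uAut * thA)⁻¹) ^ m := by
    have : (thA⁻¹ * uAut * thA)⁻¹ = thA⁻¹ * uAut⁻¹ * (thA⁻¹)⁻¹ := by group
    rw [this, conj_pow]
    group
  rw [h2]
  exact pow_mem (inv_mem h) m

theorem mk_eq_of_smul {f f' : G → ℝ} {r : ℝ} (hr : 0 < r) (h : ∀ g, f' g = r * f g) :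
    PLen.mk f = PLen.mk f' :=
  Quotient.sound ⟨r, hr, funext h⟩

end TopAux

open TopAux

theorem stmt_GeoV (hGeo : Stmt_Geo) (hVV : Stmt_VV) (hH : Stmt_HRel) (hRho : Stmt_Rho)
    (hPer : Stmt_Per) (hVC : Stmt_VConj) : Stmt_GeoV := by
  obtain ⟨ε, hε, hG⟩ := hGeo
  refine ⟨ε, hε, fun s => ?_, ?_⟩
  · -- the points of the line
    obtain ⟨m, hm⟩ : ∃ m : ℕ, |lam ^ 2 * s| < lam ^ m := by
      obtain ⟨m, hm⟩ := pow_unbounded_of_one_lt (|lam ^ 2 * s|) one_lt_lam
      exact ⟨m, hm⟩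
    have hlm : 0 < lam ^ m := pow_pos lam_pos m
    set S : ℝ := lam ^ 2 * s / lam ^ m with hS
    have hS1 : |S| < 1 := by
      rw [hS, abs_div, abs_of_pos hlm, div_lt_one hlm]
      exact hm
    set χ : MulAut G := psiAut⁻¹ * thA * (thA⁻¹ * (uAut⁻¹ ^ m) * thA) with hχ
    have hcχ : IsConj (χ c) chat := hPer.2.2 _ (uconj_mem hPer m)
    obtain ⟨Ry, hT, hv⟩ := (hG χ hcχ).1 S hS1
    refine ⟨Ry, ⟨0, fun t _ => hT t⟩, ?_⟩
    have hχg : ∀ g, χ g = psiAut⁻¹ ((uAut⁻¹ ^ m) (thA g)) := by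
      intro g
      rw [hχ]
      simp [MulAut.mul_apply]
    unfold TeichRay.foliation
    refine mk_eq_of_smul (r := lam ^ m * (lam ^ 2)⁻¹)
      (mul_pos hlm (inv_pos.2 (pow_pos lam_pos 2))) (fun g => ?_)
    have h0 : 0 ≤ VO S (χ g) := (hVC (ostri.real S) (χ g) 1).2
    rw [hv, ENNReal.toReal_ofReal h0]
    have h1 : s = lam ^ m * (S / lam ^ 2) := by
      rw [hS]
      have : lam ≠ 0 := lam_pos.ne'
      field_simp
    have h2 := hVV.2.2.2.2 S hS1.le (χ g)
    rw [hχg, MulAut.apply_inv_self] at h2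
    calc VV s (thA g) = VV (lam ^ m * (S / lam ^ 2)) (thA g) := by rw [← h1]
      _ = lam ^ m * VV (S / lam ^ 2) ((uAut⁻¹ ^ m) (thA g)) := VV_pow hVV m _ _
      _ = lam ^ m * ((lam ^ 2)⁻¹ * VO S (χ g)) := by rw [h2, hχg]
      _ = lam ^ m * (lam ^ 2)⁻¹ * VO S (χ g) := by ring
  · -- the point at infinity
    set χ : MulAut G := psiAut⁻¹ * thA * 1 with hχ
    have hcχ : IsConj (χ c) chat := hPer.2.2 _ (one_mem _)
    obtain ⟨Ry, hT, hv⟩ := (hG χ hcχ).2
    refine ⟨Ry, ⟨0, fun t _ => hT t⟩, ?_⟩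
    have hχg : ∀ g, χ g = psiAut⁻¹ (thA g) := by
      intro g
      rw [hχ]
      simp [MulAut.mul_apply]
    unfold TeichRay.foliation
    refine mk_eq_of_smul (r := lam⁻¹) (inv_pos.2 lam_pos) (fun g => ?_)
    rw [hv]
    have h0 : 0 ≤ VY (χ g) := (hVC (otri yw) (χ g) 1).2
    rw [ENNReal.toReal_ofReal h0]
    have h1 : HH (thA g) = VV 0 (rhoAut (thA g)) := by
      have h := hVV.2.2.1 0 0 ?_ (rhoAut (thA g))
      · have h2 : thAut 0 = 1 := rfl
        rw [h2, MulAut.one_apply] at h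
        exact h
      · constructor
        · have : √3 ≤ 2 := by
            rw [show (2 : ℝ) = √4 by rw [show (4 : ℝ) = 2 ^ 2 by norm_num]; simp]
            exact Real.sqrt_le_sqrt (by norm_num)
          simp only [lft, z3, endTab, Matrix.cons_val_zero]
          push_cast
          linarith
        · have : (1 : ℝ) ≤ √3 := by
            rw [show (1 : ℝ) = √1 by simp]
            exact Real.sqrt_le_sqrt (by norm_num)
          simp only [lft, z3, endTab, Matrix.cons_val_zero]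
          push_cast
          linarith
    have h2 : rhoAut (thA g) = psiAut (rhoT (χ g)) := by
      have h3 := hRho.2.2.1
      have h4 : ∀ x, psiAut (rhoT x) = rhoAut (psiAut x) := fun x => by
        rw [← MulAut.mul_apply, h3, MulAut.mul_apply]
      rw [h4, hχg, MulAut.apply_inv_self]
    have h3 := hVV.2.2.2.2 0 (by simp) (rhoT (χ g))
    have h4 := hH (χ g)
    have h5 : lam ≠ 0 := lam_pos.ne'
    rw [h1, h2]
    rw [zero_div] at h3
    rw [h3, h4]
    field_simp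

end Pool.Agent.CircleShift
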