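import Pool.Agent.Work.MP_0fc146_gt_h31.Core2

/-!
# MP_0fc146_gt : the statements of all blocks

Block `X` is a file `X.lean` with `theorem stmt_X : Stmt_X`, or `Stmt_Y → … → Stmt_X` when it uses
other blocks.  Proofs are in BLUEPRINT.md.
-/

noncomputable section

open scoped Topology ENNReal UpperHalfPlane Manifold ContDiff
open Filter

namespace Pool.Agent.CircleShift

/-! ## A. Algebra of the tables -/

/-- The letters are the roles seen in the group of state 0. -/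
def Stmt_Let : Prop := ∀ r : Fin 13,
  letAut (roleLetter r) = (thAut (roleSrc r))⁻¹ * roleAut r * thAut (roleTgt r)

def Stmt_Rho : Prop := rhoAut * rhoAut = 1 ∧ rhoAut * uAut * rhoAut = uAut⁻¹ ∧
  psiAut * rhoT = rhoAut * psiAut ∧ rhoT * rhoT = 1

/-- All letters and `u` preserve the class of the loop around the puncture. -/
def Stmt_Per : Prop := (∀ l, thA⁻¹ * letAut l * thA ∈ AutS) ∧ thA⁻¹ * uAut * thA ∈ AutS ∧
  ∀ g ∈ AutS, IsConj ((psiAut⁻¹ * thA * g) c) chat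

/-- The eight mapping classes are different: an automorphism in the list is not the product of
another one and an inner automorphism (`none` stands for `u⁻¹`). -/
def elt : Option (Fin 7) → MulAut G
  | some l => letAut l
  | none => uAut⁻¹

def Stmt_Dist : Prop := ∀ x y : Option (Fin 7), ∀ g : G, elt x = elt y * MulAut.conj g → x = y

/-! ## B. Flips -/

/-- The relation of the intersection numbers of the two states of a role. -/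
def Stmt_Role : Prop := ∀ (r : Fin 13), ∀ s ∈ K (roleSrc r), ∀ g : G,
  V (roleTgt r) (roleMap r s) g = lam⁻¹ * V (roleSrc r) s (roleAut r g)

/-- The relation of state 0 and of the octagon. -/
def Stmt_OChart : Prop := ∀ S : ℝ, |S| ≤ 1 → ∀ g : G,
  V 0 (S / lam ^ 2) (psiAut g) = (lam ^ 2)⁻¹ * VO S g

/-- The two foliations of the octagon with `S = 0`. -/
def Stmt_HRel : Prop := ∀ g : G, VY g = lam⁻¹ * VO 0 (rhoT g)

/-! ## C. Coarse bounds -/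

/-- `V` is a class function (for all labelled triangulations), and nonnegative. -/
def Stmt_VConj : Prop := ∀ (T : Tri) (g h : G), T.V (h * g * h⁻¹) = T.V g ∧ 0 ≤ T.V g

def Stmt_Coarse : Prop := ∃ C : ℝ, 0 ≤ C ∧ ∀ j, ∀ s ∈ K j,
  (∀ g, V j s g ≤ wnorm j g) ∧
  ∀ g k, CycRed g → Pieces k g → wnorm j g - C * k ≤ V j s g

/-! ## D. Words -/

/-- Bounded cancellation for automorphisms. -/
def Stmt_BCC : Prop := ∀ α : MulAut G, ∃ C : ℕ, ∀ g h : G, (g * h).norm = g.norm + h.norm →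
  (α g).norm + (α h).norm ≤ (α (g * h)).norm + 2 * C

/-- `pathAut p` is a positive substitution, and the widths are eigenvectors. -/
def Stmt_Sub : Prop := (∀ p x, pathAut p (FreeGroup.of x) = posG (pathSub p x)) ∧
  (∀ r x, wlen (roleSrc r) (posW (roleSub r x)) = lam * wid (roleTgt r) x) ∧
  (∀ j i p, RPath j i p → ∀ x, wlen j (posW (pathSub p x)) = lam ^ p.length * wid i x) ∧
  (∀ j x, 0 < wid j x ∧ wid j x < 1)

/-- The image of `g` under a path is conjugate to a cyclically reduced element whose word is the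
concatenation of at most `g.norm` parts (infixes) of the images of the generators, or inverses of
such parts. -/
def Stmt_Pieces : Prop := ∀ (p : List (Fin 13)) (g : G),
  ∃ (g' : G) (L : List (List (Fin 4) × Bool)), IsConj (pathAut p g) g' ∧ CycRed g' ∧
    L.length ≤ g.norm ∧
    g'.toWord = (L.map (fun x => if x.2 then posW x.1 else FreeGroup.invRev (posW x.1))).flatten ∧
    ∀ x ∈ L, ∃ a : Fin 4, x.1 <:+: pathSub p a

/-! ## E. Consequences for `V` -/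

def Stmt_PathV : Prop := ∀ j i p, RPath j i p → ∀ s ∈ K j, pathMap p s ∈ K i ∧
  ∀ g, V i (pathMap p s) g = (lam ^ p.length)⁻¹ * V j s (pathAut p g)

/-- The intervals are covered by the images of the roles `0, …, 11`; outside of a neighbourhood of
zero the roles with the letters `1` and `2` are not needed. -/
def Stmt_Code : Prop := (∀ i, ∀ s ∈ K i, ∃ r : Fin 13, r.val < 12 ∧ roleTgt r = i ∧
    ∃ s' ∈ K (roleSrc r), roleMap r s' = s) ∧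
  (∀ i, ∀ s ∈ K i, ∀ n : ℕ, ∃ j p, RPath j i p ∧ (∀ r ∈ p, r.val < 12) ∧ p.length = n ∧
    ∃ s' ∈ K j, pathMap p s' = s) ∧
  (∀ s : ℝ, s ∉ K 0 → s ∉ K 1 → s ∉ K 2 → ∃ (m : ℕ) (i : Fin 3) (s₁ : ℝ), 1 ≤ m ∧
    s = lam ^ m * s₁ ∧ s₁ ∈ K i ∧ ∀ n : ℕ, 1 ≤ n →
      ∃ j p, ∃ r : Fin 13, RPath j i (p ++ [r]) ∧ (∀ r' ∈ p ++ [r], r'.val < 12) ∧ roleLetter r ≠ 1 ∧
        roleLetter r ≠ 2 ∧ p.length + 1 = n ∧ ∃ s' ∈ K j, pathMap (p ++ [r]) s' = s₁) ∧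
  (∀ (r : Fin 13), r.val < 12 → roleLetter r ≠ 1 → roleLetter r ≠ 2 →
    ∀ s ∈ K (roleSrc r), (1 / 8 : ℝ) ≤ |roleMap r s|)

/-- Basic facts on `VV`. -/
def Stmt_VV : Prop := (∀ s g h, VV s (h * g * h⁻¹) = VV s g) ∧
  (∀ s g, VV (lam * s) g = lam * VV s (uAut⁻¹ g)) ∧
  (∀ j, ∀ s ∈ K j, ∀ g, V j s (thAut j g) = VV s g) ∧
  (∀ j i p, RPath j i p → ∀ s ∈ K j, ∀ g, VV (pathMap p s) g =
    (lam ^ p.length)⁻¹ * VV s ((thAut j)⁻¹ (pathAut p (thAut i g)))) ∧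
  (∀ S, |S| ≤ 1 → ∀ g, VV (S / lam ^ 2) (psiAut g) = (lam ^ 2)⁻¹ * VO S g)

/-- The approximation by weighted lengths. -/
def Stmt_LimV : Prop := ∃ C : ℝ, 0 ≤ C ∧ ∀ j i p, RPath j i p → ∀ s ∈ K j, ∀ g : G,
  ∃ g' : G, IsConj (pathAut p g) g' ∧ CycRed g' ∧ Pieces g.norm g' ∧
    |V i (pathMap p s) g - (lam ^ p.length)⁻¹ * wnorm j g'| ≤ C * g.norm * (lam ^ p.length)⁻¹

/-- Two explicit values on the interval of state 0: `g₁` and `g₂ c₀`, with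
`c₀ = g₁ g₂ g₃ g₄ (g₄ g₂ g₁ g₃)⁻¹`. -/
def Stmt_Inj : Prop := ∀ s ∈ K 0, V 0 s (FreeGroup.of 0) = wid 0 0 ∧
  V 0 s (FreeGroup.of 1 * (posG [0, 1, 2, 3] * (posG [3, 1, 0, 2])⁻¹)) = wid 0 1 + 2 * (s - lft 0)

def Stmt_Cont : Prop := ∀ g, Continuous (fun s => VV s g)

/-- Injectivity of the circle. -/
def Stmt_InjV : Prop := (∀ s, ∃ g, VV s g ≠ 0) ∧ (∃ g, HH g ≠ 0) ∧
  (∀ s s' r : ℝ, 0 < r → (∀ g, VV s' g = r * VV s g) → s = s') ∧
  (∀ s r : ℝ, 0 < r → ¬ ∀ g, HH g = r * VV s g)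

/-! ## F. The limit lemma -/

/-- Contraction of the products of the transition matrices. -/
def Stmt_Doeb : Prop := ∀ C c₀ C₀ : ℝ, 0 < c₀ → ∃ Q β c₁ : ℝ, 0 ≤ Q ∧ 0 < β ∧ β < 1 ∧ 0 < c₁ ∧
  ∀ ℓ : List (Fin 13) → Fin 4 → ℝ, (∀ x, |ℓ [] x| ≤ C) → ∃ κ : List (Fin 13) → ℝ,
    ∀ j i p, RPath j i p →
      (∀ q r, q ++ [r] <+: p → ∀ x, |ℓ (q ++ [r]) x - ((roleSub r x).map (ℓ q)).sum| ≤ C) →
      (∀ q, q <+: p → ∀ x, c₀ * lam ^ q.length - C₀ ≤ ℓ q x) →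
      c₁ ≤ κ p ∧ κ p ≤ c₁⁻¹ ∧ (∀ q, q <+: p → |κ p - κ q| ≤ Q * β ^ q.length) ∧
        ∀ x, |ℓ p x - κ p * lam ^ p.length * wid i x| ≤ Q * (β * lam) ^ p.length

/-- The limit lemma: length functions which are nearly additive on positive words converge to `V`
along paths. -/
def Stmt_T : Prop := ∀ C c₀ C₀ : ℝ, 0 < c₀ → ∃ Q β c₁ : ℝ, 0 ≤ Q ∧ 0 < β ∧ β < 1 ∧ 0 < c₁ ∧
  ∀ nrm len : G → ℝ, LenData nrm len C → NA nrm C → ∃ κ : List (Fin 13) → ℝ,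
    ∀ j i p, RPath j i p →
      (∀ q, q <+: p → ∀ x, c₀ * lam ^ q.length - C₀ ≤ nrm (pathAut q (FreeGroup.of x))) →
      c₁ ≤ κ p ∧ κ p ≤ c₁⁻¹ ∧ (∀ q, q <+: p → |κ p - κ q| ≤ Q * β ^ q.length) ∧
        ∀ s ∈ K j, ∀ g, |len (pathAut p g) - κ p * lam ^ p.length * V i (pathMap p s) g| ≤
          Q * (g.norm + 1) * (β * lam) ^ p.length

/-! ## G. The hyperbolic octagon -/

/-- The word of `chat`. -/
def chatW : List (Fin 4 × Bool) := [(3, false), (2, true), (1, false), (0, true), (3, true),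
  (2, false), (1, true), (0, false)]

/-- Subwords of powers of the peripheral word. -/
def PerW (w : List (Fin 4 × Bool)) : Prop := ∃ n : ℕ,
  w <:+: (List.replicate n chatW).flatten ∨ w <:+: (List.replicate n (FreeGroup.invRev chatW)).flatten

/-- Near additivity of the hyperbolic displacement at junctions followed by a short non-peripheral
word. -/
def Stmt_X1 : Prop := ∀ D : ℕ, ∃ C : ℝ, ∀ A B : List (Fin 4 × Bool), FreeGroup.IsReduced (A ++ B) →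
  (∃ w, w <+: B ∧ w.length ≤ D ∧ ¬ PerW w) →
  xnrm (FreeGroup.mk A) + xnrm (FreeGroup.mk B) - C ≤ xnrm (FreeGroup.mk (A ++ B))

/-- Linear growth of words without long peripheral parts. -/
def Stmt_X1g : Prop := ∀ D : ℕ, ∃ c₀ C₀ : ℝ, 0 < c₀ ∧ ∀ w : List (Fin 4 × Bool),
  FreeGroup.IsReduced w → (∀ v, v <:+: w → D ≤ v.length → ¬ PerW v) →
  c₀ * w.length - C₀ ≤ xnrm (FreeGroup.mk w)

/-- Images of positive words have no long peripheral parts. -/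
def Stmt_X2 : Prop := ∀ α : MulAut G, ∃ D : ℕ, ∀ l : List (Fin 4), ∀ v : List (Fin 4 × Bool),
  v <:+: (α (posG l)).toWord → D ≤ v.length → ¬ PerW v

def Stmt_XNA : Prop := ∀ α : MulAut G, ∃ C c₀ C₀ : ℝ, 0 < c₀ ∧
  LenData (fun g => xnrm (α g)) (fun g => xlen (α g)) C ∧ NA (fun g => xnrm (α g)) C ∧
  ∀ l : List (Fin 4), c₀ * l.length - C₀ ≤ xnrm (α (posG l))

/-- The hyperbolic octagon as a marked surface. -/
def Stmt_XSurf : Prop := ∃ X : MarkedSurface, ∀ g,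
  X.hypLen g = ENNReal.ofReal (xlen (psiAut⁻¹ (thA g)))

/-! ## H. The flat octagon: combinatorics -/

/-- Based intersection numbers of the octagon. -/
def VsO (S : ℝ) (g : G) : ℝ := (ostri.real S).Vs 1 g

def Stmt_VNA : Prop := ∀ α : MulAut G, ∃ C : ℝ, ∀ S : ℝ, |S| ≤ 1 →
  LenData (fun g => VsO S (α g)) (fun g => VO S (α g)) C ∧ NA (fun g => VsO S (α g)) C

/-- Superadditivity. -/
def Stmt_VsAdd : Prop := ∀ S : ℝ, |S| ≤ 1 → ∀ g h : G, (g * h).norm = g.norm + h.norm →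
  VsO S g + VsO S h ≤ VsO S (g * h)

def Stmt_Grow : Prop := ∃ c₀ C₀ : ℝ, 0 < c₀ ∧ ∀ S : ℝ, 1 / 4 ≤ |S| → |S| ≤ 1 → ∀ (m : ℕ) (x : Fin 4),
  c₀ * lam ^ m - C₀ ≤ VsO S (psiAut⁻¹ (rhoAut ((uAut ^ m) (FreeGroup.of x))))

/-! ## I. The limits -/

/-- Hyperbolic lengths in the group of state 0. -/
def ell (g : G) : ℝ := xlen (psiAut⁻¹ g)

def Stmt_L1 : Prop := ∃ Q β c₁ : ℝ, 0 ≤ Q ∧ 0 < β ∧ β < 1 ∧ 0 < c₁ ∧ ∀ j i p, RPath j i p →
  ∃ κ, c₁ ≤ κ ∧ κ ≤ c₁⁻¹ ∧ ∀ s ∈ K j, ∀ g,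
    |ell ((thAut j)⁻¹ (pathAut p (thAut i g))) / (κ * lam ^ p.length) - VV (pathMap p s) g| ≤
      Q * (g.norm + 1) * β ^ p.length

def Stmt_L2 : Prop := ∀ κ : MulAut G, ∃ b : ℝ, 0 < b ∧ ∀ g,
  Tendsto (fun m : ℕ => ell (κ ((uAut⁻¹ ^ m) g)) / lam ^ m) atTop (𝓝 (b * HH g))

def Stmt_L3 : Prop := ∃ Q β c₁ : ℝ, 0 ≤ Q ∧ 0 < β ∧ β < 1 ∧ 0 < c₁ ∧ ∀ s : ℝ,
  1 / 4 / lam ^ 2 ≤ |s| → |s| ≤ 1 / lam ^ 2 → ∃ b, c₁ ≤ b ∧ b ≤ c₁⁻¹ ∧ ∀ (m : ℕ) (g : G),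
    |VV (lam ^ m * s) g / lam ^ (2 * m) - b * HH g| ≤ Q * (g.norm + 1) * β ^ m

def Stmt_L4 : Prop := ∃ Q : ℝ, ∀ (m : ℕ) (g : G), (((uAut⁻¹ ^ m) g).norm : ℝ) ≤ Q * lam ^ m * g.norm

/-! ## J. The octagon surfaces: topology -/

def Stmt_Tree : Prop := ∃ pt : G → Fin 8 → ℝ × ℝ → ℍ, OctTree ℍ pt

def Stmt_Act : Prop := ∀ (U : Type) [TopologicalSpace U] [T2Space U] [MulAction G U]
  (pt : G → Fin 8 → ℝ × ℝ → U), OctTree U pt →
  (∀ g : G, Continuous (fun u : U => g • u)) ∧ (∀ (g : G) (u : U), g • u = u → g = 1) ∧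
    ProperlyDiscontinuousSMul G U

/-- The octagons: for the vertical foliations of all `S ∈ (-1, 1)`, and for the horizontal foliation
of `S = 0`; at all times `t`. -/
def Stmt_Oct : Prop := ∃ R : ℝ, ∀ t : ℝ,
  (∀ S : ℝ, |S| < 1 → ∃ W : OctData, (∀ k, W.w k = ⟨Real.exp t * xw S k, Real.exp (-t) * yw k⟩) ∧
    (∀ g, W.tau g ≠ 0 → √2 ≤ ‖W.tau g‖) ∧ ∀ x : ℂ, ∃ g, ‖x - W.tau g‖ ≤ R) ∧
  (∃ W : OctData, (∀ k, W.w k = ⟨Real.exp t * yw k, Real.exp (-t) * (-xw 0 k)⟩) ∧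
    (∀ g, W.tau g ≠ 0 → √2 ≤ ‖W.tau g‖) ∧ ∀ x : ℂ, ∃ g, ‖x - W.tau g‖ ≤ R)

section dev

/-- Abbreviation for statements on all tree-like surfaces with a developing map. -/
def ForDev (P : ∀ (U : Type) [TopologicalSpace U] [MulAction G U] (_ : G → Fin 8 → ℝ × ℝ → U)
    (_ : OctData) (_ : U → ℂ), Prop) : Prop :=
  ∀ (U : Type) [TopologicalSpace U] [T2Space U] [MulAction G U]
    (pt : G → Fin 8 → ℝ × ℝ → U), OctTree U pt → ∀ (W : OctData) (D : U → ℂ), IsDev pt W D →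
    P U pt W D

end dev

def Stmt_Dev : Prop := ∀ (U : Type) [TopologicalSpace U] [MulAction G U]
  (pt : G → Fin 8 → ℝ × ℝ → U), OctTree U pt → ∀ W : OctData, ∃ D : U → ℂ, IsDev pt W D

/-- Continuity and equivariance of the developing map. -/
def Stmt_DevCont : Prop := ForDev fun U _ _ _ W D => Continuous D ∧
  ∀ (g : G) (u : U), D (g • u) = D u + W.tau g

def Stmt_Loc : Prop := ForDev fun U _ _ pt _ D => ∀ u : U, (∀ g : G, u ≠ g • pt 1 0 (0, 0)) →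
  ∃ e : OpenPartialHomeomorph U ℂ, u ∈ e.source ∧ ∀ y ∈ e.source, e y = D y

def Stmt_Cone : Prop := ForDev fun U _ _ pt _ D => ∃ e : OpenPartialHomeomorph U ℂ,
  pt 1 0 (0, 0) ∈ e.source ∧ e (pt 1 0 (0, 0)) = 0 ∧ ∀ y ∈ e.source, (e y) ^ 3 = D y

def Stmt_Fib : Prop := ForDev fun U _ _ pt W D =>
  (∀ (u : U) (g : G), D u = W.tau g → ∃ g' : G, u = g' • pt 1 0 (0, 0)) ∧
  (∀ g, W.w 0 ≠ W.tau g) ∧
  ∀ η > 0, ∃ Kc : Set U, IsCompact Kc ∧ ∀ u, (∀ g, η ≤ ‖D u - (W.w 0 + W.tau g)‖) →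
    ∃ g : G, g • u ∈ Kc

def Stmt_Punct : Prop := ForDev fun U _ _ _ W D => ∃ (r : ℝ) (j : ℍ → U), 0 < r ∧ Continuous j ∧
    (∀ z : ℍ, D (j z) = W.w 0 + r * Complex.exp (2 * Real.pi * Complex.I * z)) ∧
    (∀ z : ℍ, j ((1 : ℝ) +ᵥ z) = chat • j z) ∧
    ∀ u g, 0 < ‖D u - (W.w 0 + W.tau g)‖ → ‖D u - (W.w 0 + W.tau g)‖ < r →
      (∃ (g' : G) (z : ℍ), W.tau g' = W.tau g ∧ u = g' • j z) ∨
      (∃ s : ℂ → U, ContinuousOn s (Metric.ball (W.w 0 + W.tau g) r) ∧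
        (∀ y ∈ Metric.ball (W.w 0 + W.tau g) r, D (s y) = y) ∧ s (D u) = u)

/-- The combinatorial intersection numbers are the geometric ones. -/
def Stmt_VGeo : Prop := ForDev fun _ _ _ _ W D => ∀ g,
  vgeo D g = ENNReal.ofReal ((otri (fun k => (W.w k).re)).V g)

/-! ## K. The octagon surfaces: complex structure and thickness -/

def Stmt_Cov : Prop := ∀ (U : Type) [TopologicalSpace U] [T2Space U] [MulAction G U] (D : U → ℂ)
  (tau : G → ℂ) (C₀ : U) (q₀ : ℂ), (∀ g : G, Continuous (fun u : U => g • u)) →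
  BrData U D tau C₀ q₀ → IsCoveringMapOn D {y | ∀ g, y ≠ tau g ∧ y ≠ q₀ + tau g}

def Stmt_Mfd : Prop := ∀ (U : Type) [TopologicalSpace U] [T2Space U] [MulAction G U] (D : U → ℂ)
  (tau : G → ℂ) (C₀ : U) (q₀ : ℂ), (∀ g : G, Continuous (fun u : U => g • u)) →
  (∀ (g : G) (u : U), g • u = u → g = 1) → BrData U D tau C₀ q₀ →
  ∃ cs : ChartedSpace ℂ U, letI := cs; IsManifold 𝓘(ℂ) ω U ∧ ContMDiff 𝓘(ℂ) 𝓘(ℂ) ω D ∧
    (∀ g : G, ContMDiff 𝓘(ℂ) 𝓘(ℂ) ω (fun u : U => g • u)) ∧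
    (∀ f : ℍ → U, Continuous f → ContMDiff 𝓘(ℂ) 𝓘(ℂ) ω (fun z => D (f z)) →
      ContMDiff 𝓘(ℂ) 𝓘(ℂ) ω f) ∧
    (∀ f : ℍ → U, ContMDiff 𝓘(ℂ) 𝓘(ℂ) ω f → ∀ z : ℍ, (∃ g, D (f z) = tau g) →
      deriv (fun y : ℂ => D (f (UpperHalfPlane.ofComplex y))) z = 0)

/-- Loops with small developed image are peripheral. -/
def Stmt_TL : Prop := ∀ (U : Type) [TopologicalSpace U] [T2Space U] [MulAction G U] (D : U → ℂ)
  (tau : G → ℂ) (C₀ : U) (q₀ : ℂ), (∀ g : G, Continuous (fun u : U => g • u)) →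
  (∀ (g : G) (u : U), g • u = u → g = 1) → BrData U D tau C₀ q₀ →
  ∀ E : Set ℂ, IsOpen E → Convex ℝ E → (∃ g, tau g ∈ E) →
    (∀ x ∈ E, ∀ y ∈ E, ∀ g, x - y = tau g → tau g = 0) →
    ∀ (u : U) (g : G) (p : Path u (g • u)), (∀ s, D (p s) ∈ E) →
      ∃ (h : G) (n : ℤ), g = h * chat ^ n * h⁻¹

/-- The derivative bound. -/
def Stmt_Brody : Prop := ∀ R : ℝ, ∃ C : ℝ, ∀ Lam : Set ℂ, (∀ x : ℂ, ∃ v ∈ Lam, ‖x - v‖ ≤ R) →
  ∀ F : ℂ → ℂ, DifferentiableOn ℂ F {z | 0 < z.im} →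
    (∀ z : ℂ, 0 < z.im → F z ∈ Lam → deriv F z = 0) →
    ∀ z : ℂ, 0 < z.im → ‖deriv F z‖ * z.im ≤ C

/-- From the properties of the developing maps to the Teichmuller ray. -/
def Stmt_AG : Prop := ∀ R : ℝ, ∃ ε > 0, ∀ (U : Type) [TopologicalSpace U] [T2Space U]
  [SimplyConnectedSpace U] [MulAction G U] [ProperlyDiscontinuousSMul G U] (D : ℝ → U → ℂ)
  (tau : ℝ → G → ℂ) (C₀ : U) (q₀ : ℝ → ℂ), (∀ g : G, Continuous (fun u : U => g • u)) →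
  (∀ (g : G) (u : U), g • u = u → g = 1) → (∀ t, BrData U (D t) (tau t) C₀ (q₀ t)) →
  (∀ t u, D t u = ⟨Real.exp t * (D 0 u).re, Real.exp (-t) * (D 0 u).im⟩) →
  (∀ t g, tau t g ≠ 0 → √2 ≤ ‖tau t g‖) → (∀ t, ∀ x : ℂ, ∃ g, ‖x - tau t g‖ ≤ R) →
  ∀ χ : MulAut G, IsConj (χ c) chat →
    ∃ Ry : TeichRay, (∀ t, (Ry.X t).IsThick ε) ∧ ∀ g, Ry.vert g = vgeo (D 0) (χ g)

/-! ## L. The final steps -/

def Stmt_Geo : Prop := ∃ ε > 0, ∀ χ : MulAut G, IsConj (χ c) chat →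
  (∀ S : ℝ, |S| < 1 → ∃ Ry : TeichRay, (∀ t, (Ry.X t).IsThick ε) ∧
    ∀ g, Ry.vert g = ENNReal.ofReal (VO S (χ g))) ∧
  (∃ Ry : TeichRay, (∀ t, (Ry.X t).IsThick ε) ∧ ∀ g, Ry.vert g = ENNReal.ofReal (VY (χ g)))

/-- All points of the circle are cobounded. -/
def Stmt_GeoV : Prop := ∃ ε > 0, (∀ s, PLen.mk (fun g => VV s (thA g)) ∈ COB ε) ∧
  PLen.mk (fun g => HH (thA g)) ∈ COB ε

/-- Continuity at infinity, and the circle. -/
def Stmt_Circle : Prop := IsCompact ({PLen.mk (fun g => HH (thA g))} ∪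
    Set.range (fun s => PLen.mk (fun g => VV s (thA g)))) ∧
  Nonempty (({PLen.mk (fun g => HH (thA g))} ∪
    Set.range (fun s => PLen.mk (fun g => VV s (thA g))) : Set PLen) ≃ₜ Circle)

/-- The final step: everything implies the final statement. -/
def Stmt_Top : Prop := Stmt_Let → Stmt_Rho → Stmt_Per → Stmt_Dist → Stmt_Code → Stmt_VV →
  Stmt_Cont → Stmt_InjV → Stmt_L1 → Stmt_L2 → Stmt_L3 → Stmt_L4 → Stmt_XSurf → Stmt_Circle →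
  Stmt_GeoV → FinalStatement

end Pool.Agent.CircleShift

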