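import Pool.Agent.Work.MP_0fc146_gt_h31.Top2

/-!
# Block Top: the final step
-/

noncomputable section

open scoped Topology ENNReal UpperHalfPlane Manifold ContDiff
open Filter

namespace Pool.Agent.CircleShift

namespace TopAux

/-- The points of the shift. -/
def AS (n : ℕ) : Set PLen :=
  {y | ∃ j i p m, GPath j i p m ∧ p.length + m = n ∧ y = PLen.mk (fpt j i p m)}

theorem upper (hVV : Stmt_VV) (hC : Stmt_Code) (hCont : Stmt_Cont) (hL1 : Stmt_L1)
    (hL2 : Stmt_L2) (hL3 : Stmt_L3) (hL4 : Stmt_L4) (V : Set PLen) (hVo : IsOpen V)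
    (hCV : CS ⊆ V) : ∀ᶠ n in atTop, AS n ⊆ V := by
  by_contra h
  rw [Filter.not_eventually, Filter.frequently_iff_neBot] at h
  let U := Ultrafilter.of (atTop ⊓ 𝓟 {n | ¬ AS n ⊆ V})
  have hU : (U : Filter ℕ) ≤ atTop ⊓ 𝓟 {n | ¬ AS n ⊆ V} := Ultrafilter.of_le _
  have hU1 : (U : Filter ℕ) ≤ atTop := hU.trans inf_le_left
  have hU2 : ∀ᶠ n in (U : Filter ℕ), ¬ AS n ⊆ V := by
    have := hU.trans inf_le_right
    exact Filter.le_principal_iff.1 this
  have hd : ∀ n, ∃ (j i : Fin 3) (p : List (Fin 13)) (m : ℕ), ¬ AS n ⊆ V →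
      (GPath j i p m ∧ p.length + m = n) ∧ PLen.mk (fpt j i p m) ∉ V := by
    intro n
    by_cases hn : AS n ⊆ V
    · exact ⟨0, 0, [], 0, fun h => (h hn).elim⟩
    · obtain ⟨y, ⟨j, i, p, m, h1, h2, rfl⟩, h3⟩ := Set.not_subset.1 hn
      exact ⟨j, i, p, m, fun _ => ⟨⟨h1, h2⟩, h3⟩⟩
  choose j i p m hd using hd
  obtain ⟨y, hy, hlim⟩ := ultra_lim hVV hC hCont hL1 hL2 hL3 hL4 U hU1 j i p m (by
    filter_upwards [hU2] with n hn
    exact (hd n hn).1)
  have h1 : ∀ᶠ n in (U : Filter ℕ), PLen.mk (fpt (j n) (i n) (p n) (m n)) ∈ V :=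
    hlim.eventually (hVo.mem_nhds (hCV hy))
  obtain ⟨n, hn1, hn2⟩ := (h1.and hU2).exists
  exact (hd n hn2).2 hn1

theorem dens_aux (hVV : Stmt_VV) (hL1 : Stmt_L1) (hL4 : Stmt_L4) (V : Set PLen) (hVo : IsOpen V)
    (m : ℕ) (i : Fin 3) (s₁ : ℝ) (hV : PLen.mk (fun g => VV (lam ^ m * s₁) (thA g)) ∈ V)
    (h : ∀ n : ℕ, 1 ≤ n → ∃ j p, GPath j i p m ∧ p.length = n ∧ ∃ s' ∈ K j, pathMap p s' = s₁) :
    ∀ᶠ n in atTop, (AS n ∩ V).Nonempty := by
  obtain ⟨Q, β, c₁, hQ, hβ0, hβ1, hc₁, hest⟩ := main_est hVV hL1 hL4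
  have hd : ∀ n : ℕ, ∃ (j : Fin 3) (p : List (Fin 13)) (κ : ℝ), 0 < κ ∧ (1 ≤ n → GPath j i p m ∧
      p.length = n ∧ ∀ g : G, |(κ * lam ^ n * lam ^ m)⁻¹ * fpt j i p m g -
          (lam ^ (2 * m))⁻¹ * VV (lam ^ m * s₁) (thA g)| ≤ Q * ((thA g).norm + 1) * β ^ n) := by
    intro n
    by_cases hn : 1 ≤ n
    · obtain ⟨j, p, h1, h2, s', hs', h3⟩ := h n hn
      obtain ⟨κ, hκ1, hκ2, hκ⟩ := hest j i p h1.path
      refine ⟨j, p, κ, hc₁.trans_le hκ1, fun _ => ⟨h1, h2, fun g => ?_⟩⟩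
      have h4 := hκ s' hs' m g
      rw [h3, h2] at h4
      exact h4
    · exact ⟨0, [], 1, one_pos, fun h => (hn h).elim⟩
  choose j p κ hκ hd using hd
  have hlim : Tendsto (fun n => PLen.mk (fpt (j n) i (p n) m)) atTop
      (𝓝 (PLen.mk (fun g => (lam ^ (2 * m))⁻¹ * VV (lam ^ m * s₁) (thA g)))) := by
    refine tendsto_mk (r := fun n => (κ n * lam ^ n * lam ^ m)⁻¹) ?_ ?_
    · filter_upwards with n
      have := lam_pos
      have := hκ n
      positivity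
    · intro g
      rw [← tendsto_sub_nhds_zero_iff]
      have hz : Tendsto (fun n : ℕ => Q * ((thA g).norm + 1) * β ^ n) atTop (𝓝 0) := by
        simpa using (tendsto_pow_atTop_nhds_zero_of_lt_one hβ0.le hβ1).const_mul
          (Q * ((thA g).norm + 1))
      refine squeeze_zero_norm' ?_ hz
      filter_upwards [eventually_ge_atTop 1] with n hn
      exact (hd n hn).2.2 g
  rw [mk_smul (inv_pos.2 (pow_pos lam_pos _))] at hlim
  have hev := hlim.eventually (hVo.mem_nhds hV)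
  obtain ⟨N, hN⟩ := eventually_atTop.1 hev
  filter_upwards [eventually_ge_atTop (N + 1 + m)] with n hn
  have h1 := hN (n - m) (by omega)
  have h2 := hd (n - m) (by omega)
  exact ⟨_, ⟨j (n - m), i, p (n - m), m, h2.1, by rw [h2.2.1]; omega, rfl⟩, h1⟩

theorem lower (hVV : Stmt_VV) (hC : Stmt_Code) (hL1 : Stmt_L1)
    (hL2 : Stmt_L2) (hL4 : Stmt_L4) (V : Set PLen) (hVo : IsOpen V)
    (hCV : (CS ∩ V).Nonempty) : ∀ᶠ n in atTop, (AS n ∩ V).Nonempty := by
  obtain ⟨y, hy, hyV⟩ := hCV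
  rcases hy with hy | ⟨s, rfl⟩
  · -- the point at infinity
    rw [Set.mem_singleton_iff] at hy
    subst hy
    obtain ⟨b, hb, hlim⟩ := hL2 1
    have hlim2 : Tendsto (fun n => PLen.mk (fpt 0 0 [] n)) atTop
        (𝓝 (PLen.mk (fun g => HH (thA g)))) := by
      refine tendsto_mk (r := fun n => b⁻¹ * (lam ^ n)⁻¹) ?_ ?_
      · filter_upwards with n
        have := lam_pos
        positivity
      · intro g
        have h1 := (hlim (thA g)).const_mul b⁻¹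
        have h2 : b⁻¹ * (b * HH (thA g)) = HH (thA g) := by field_simp
        rw [h2] at h1
        refine h1.congr fun n => ?_
        have h3 : fpt 0 0 [] n g = ell ((uAut⁻¹ ^ n) (thA g)) := by
          unfold fpt
          rw [pathAut_nil, MulAut.one_apply, MulAut.inv_apply_self]
        rw [h3, MulAut.one_apply]
        ring
    filter_upwards [hlim2.eventually (hVo.mem_nhds hyV)] with n hn
    exact ⟨_, ⟨0, 0, [], n, ⟨RPath.nil 0, by simp, by simp⟩, by simp, rfl⟩, hn⟩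
  · by_cases hs : ∃ i, s ∈ K i
    · obtain ⟨i, hs⟩ := hs
      refine dens_aux hVV hL1 hL4 V hVo 0 i s (by simpa using hyV) fun n _ => ?_
      obtain ⟨j, p, h1, h2, h3, s', hs', h4⟩ := hC.2.1 i s hs n
      exact ⟨j, p, ⟨h1, h2, by simp⟩, h3, s', hs', h4⟩
    · push Not at hs
      obtain ⟨m, i, s₁, hm, rfl, hs₁, h⟩ := hC.2.2.1 s (hs 0) (hs 1) (hs 2)
      refine dens_aux hVV hL1 hL4 V hVo m i s₁ hyV fun n hn => ?_
      obtain ⟨j, p, r, h1, h2, h3, h4, h5, s', hs', h6⟩ := h n hn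
      refine ⟨j, p ++ [r], ⟨h1, h2, fun _ r' hr' => ?_⟩, by simpa using h5, s', hs', h6⟩
      rw [List.getLast?_append_of_ne_nil _ (by simp)] at hr'
      simp only [List.getLast?_singleton, Option.some.injEq] at hr'
      subst hr'
      exact ⟨h3, h4⟩

end TopAux

open TopAux

theorem stmt_Top : Stmt_Top := by
  intro hLet _ hPer hDist hCode hVV hCont _ hL1 hL2 hL3 hL4 hX hCircle hGeoV
  obtain ⟨X, hX⟩ := hX
  obtain ⟨ε, hε, hV, hH⟩ := hGeoV
  have hA : (fun n => Teich.toPLen '' shiftSet (FS hPer) (PS hPer) (tmk X) n) = AS :=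
    funext fun n => shift_eq hLet hPer hDist X hX n
  refine ⟨FS hPer, PS hPer, tmk X, ε, CS, Set.finite_range _, PS_subset hPer, hε, ?_, hCircle.2,
    ?_⟩
  · rw [hA]
    exact ⟨hCircle.1, upper hVV hCode hCont hL1 hL2 hL3 hL4, lower hVV hCode hL1 hL2 hL4⟩
  · rintro y (hy | ⟨s, rfl⟩)
    · rw [Set.mem_singleton_iff] at hy
      rw [hy]
      exact hH
    · exact hV s

end Pool.Agent.CircleShift
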