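import Pool.Agent.Work.MP_0fc146_gt_h31.Alg
import Pool.Agent.Work.MP_0fc146_gt_h31.Geo
import Pool.Agent.Work.MP_0fc146_gt_h31.GeoV
import Pool.Agent.Work.MP_0fc146_gt_h31.Top
import Pool.Agent.Work.MP_0fc146_gt_98.Line
import Pool.Agent.Work.MP_0fc146_gt_98.Grow
import Pool.Agent.Work.MP_0fc146_gt_98.L
import Pool.Agent.Work.MP_0fc146_gt_helper2.Code
import Pool.Agent.Work.MP_0fc146_gt_helper2.Inj
import Pool.Agent.Work.MP_0fc146_gt_helper2.InjV
import Pool.Agent.Work.MP_0fc146_gt_helper2.Circle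
import Pool.Agent.Work.MP_0fc146_gt_helper24.FLIPc
import Pool.Agent.Work.MP_0fc146_gt_helper29.Brody
import Pool.Agent.Work.MP_0fc146_gt_helper29.Mfd
import Pool.Agent.Work.MP_0fc146_gt_helper29.Punct
import Pool.Agent.Work.MP_0fc146_gt_helper68.Tree
import Pool.Agent.Work.MP_0fc146_gt_helper70.Dev
import Pool.Agent.Work.MP_0fc146_gt_helper70.VGeo
import Pool.Agent.Work.MP_0fc146_gt_helper72.BCC
import Pool.Agent.Work.MP_0fc146_gt_helper72.Coarse
import Pool.Agent.Work.MP_0fc146_gt_helper72.TREEa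
import Pool.Agent.Work.MP_0fc146_gt_helper72.VNA
import Pool.Agent.Work.MP_0fc146_gt_helper72.VsAdd
import Pool.Agent.Work.MP_0fc146_gt_helper78.Doeb
import Pool.Agent.Work.MP_0fc146_gt_helper78.Pieces
import Pool.Agent.Work.MP_0fc146_gt_helper78.Sub
import Pool.Agent.Work.MP_0fc146_gt_helper78.T
import Pool.Agent.Work.MP_0fc146_gt_helper89.Act
import Pool.Agent.Work.MP_0fc146_gt_helper89.Oct
import Pool.Agent.Work.MP_0fc146_gt_helper89.XNA
import Pool.Agent.Work.MP_0fc146_gt_helper76.TL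
import Pool.Agent.Work.MP_0fc146_gt_helper95.AG
import Pool.Agent.Work.MP_0fc146_gt_helper95.Cone
import Pool.Agent.Work.MP_0fc146_gt_helper95.Cov
import Pool.Agent.Work.MP_0fc146_gt_helper95.Loc
import Pool.Agent.Work.MP_0fc146_gt_helper95.XSurf

/-!
# MP_0fc146_gt : the assembly of all blocks
-/

noncomputable section

namespace Pool.Agent.CircleShift

theorem finalStatement : FinalStatement := by
  have hPathV : Stmt_PathV := stmt_PathV stmt_Role
  have hVV : Stmt_VV := stmt_VV stmt_Role stmt_OChart stmt_VConj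
  have hCont : Stmt_Cont := stmt_Cont stmt_Role stmt_Coarse stmt_Pieces stmt_VConj stmt_Code
  have hInj : Stmt_Inj := stmt_Inj hPathV stmt_Coarse stmt_VConj
  have hInjV : Stmt_InjV := stmt_InjV stmt_Role hInj stmt_Rho
  have hT : Stmt_T := stmt_T hPathV stmt_Coarse stmt_Pieces stmt_VConj
  have hXNA : Stmt_XNA := stmt_XNA stmt_BCC
  have hL1 : Stmt_L1 := stmt_L1 hT hXNA stmt_Sub hVV
  have hL2 : Stmt_L2 := stmt_L2 hT hXNA stmt_Coarse stmt_Sub stmt_VConj stmt_Rho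
  have hGrow : Stmt_Grow := stmt_Grow stmt_VsAdd
  have hL3 : Stmt_L3 := stmt_L3 hT stmt_VNA hGrow stmt_Coarse stmt_Sub stmt_VConj stmt_Rho hVV
  have hL4 : Stmt_L4 := stmt_L4 stmt_Sub stmt_Rho
  have hXSurf : Stmt_XSurf := stmt_XSurf stmt_Tree stmt_Act
  have hCircle : Stmt_Circle := stmt_Circle hCont hInjV hL3
  have hLoc : Stmt_Loc := stmt_Loc stmt_DevCont
  have hCone : Stmt_Cone := stmt_Cone stmt_DevCont
  have hPunct : Stmt_Punct := stmt_Punct stmt_Act stmt_DevCont hLoc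
  have hTL : Stmt_TL := stmt_TL stmt_Cov
  have hAG : Stmt_AG := stmt_AG stmt_Mfd hTL stmt_Brody
  have hGeo : Stmt_Geo := stmt_Geo stmt_Tree stmt_Act stmt_Oct stmt_Dev stmt_DevCont hLoc hCone stmt_Fib
    hPunct stmt_VGeo hAG
  have hGeoV : Stmt_GeoV := stmt_GeoV hGeo hVV stmt_HRel stmt_Rho stmt_Per stmt_VConj
  exact stmt_Top stmt_Let stmt_Rho stmt_Per stmt_Dist stmt_Code hVV hCont hInjV hL1 hL2 hL3 hL4
    hXSurf hCircle hGeoV

end Pool.Agent.CircleShift
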