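import Pool.Agent.Work.MP_0fc146_gt_h31.GeoV

/-!
# Block Top, part 1: the shift of finite type and its points
-/

noncomputable section

open scoped Topology ENNReal UpperHalfPlane Manifold ContDiff
open Filter

namespace Pool.Agent.CircleShift

namespace TopAux

/-- The allowed transitions. -/
def TR : Option (Fin 7) → Option (Fin 7) → Prop
  | some g, some f => ∃ r r' : Fin 13, r.val < 12 ∧ r'.val < 12 ∧ roleLetter r = g ∧
      roleLetter r' = f ∧ roleTgt r = roleSrc r'
  | some g, none => g ≠ 1 ∧ g ≠ 2
  | none, some _ => False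
  | none, none => True

/-- Good paths. -/
structure GPath (j i : Fin 3) (p : List (Fin 13)) (m : ℕ) : Prop where
  path : RPath j i p
  lt : ∀ r ∈ p, r.val < 12
  last : 1 ≤ m → ∀ r, p.getLast? = some r → roleLetter r ≠ 1 ∧ roleLetter r ≠ 2

/-- The word of a good path. -/
def codeL (p : List (Fin 13)) (m : ℕ) : List (Option (Fin 7)) :=
  p.map (fun r => some (roleLetter r)) ++ List.replicate m none

theorem role_product : ∀ r r₁ : Fin 13, r.val < 12 → r₁.val < 12 → roleLetter r = roleLetter r₁ →
    ∃ r₃ : Fin 13, r₃.val < 12 ∧ roleLetter r₃ = roleLetter r ∧ roleSrc r₃ = roleSrc r ∧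
      roleTgt r₃ = roleTgt r₁ := by decide +kernel

theorem chain_none (L : List (Option (Fin 7))) (h : List.IsChain TR (none :: L)) :
    none :: L = List.replicate (L.length + 1) none := by
  induction L with
  | nil => rfl
  | cons x L ih =>
    rw [List.isChain_cons_cons] at h
    cases x with
    | none =>
      rw [ih h.2]
      simp [List.replicate_succ]
    | some f => exact (h.1).elim

theorem chain_split (L : List (Option (Fin 7))) : ∀ j : Fin 3, List.IsChain TR L →
    (∀ f, L.head? = some (some f) → ∃ r : Fin 13, r.val < 12 ∧ roleLetter r = f ∧ roleSrc r = j) →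
    ∃ i p m, GPath j i p m ∧ L = codeL p m := by
  induction L with
  | nil =>
    intro j _ _
    exact ⟨j, [], 0, ⟨RPath.nil j, by simp, by simp⟩, rfl⟩
  | cons x L ih =>
    intro j hL hj
    cases x with
    | none =>
      exact ⟨j, [], L.length + 1, ⟨RPath.nil j, by simp, by simp⟩, chain_none L hL⟩
    | some f =>
      obtain ⟨r, hr, hrf, hrj⟩ := hj f rfl
      cases L with
      | nil =>
        refine ⟨roleTgt r, [r], 0, ⟨?_, by simpa using hr, by simp⟩, by simp [codeL, hrf]⟩
        rw [← hrj]
        exact RPath.cons r [] _ (RPath.nil _)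
      | cons y L' =>
        rw [List.isChain_cons_cons] at hL
        cases y with
        | none =>
          have h1 := chain_none L' hL.2
          refine ⟨roleTgt r, [r], L'.length + 1, ⟨?_, by simpa using hr, ?_⟩, ?_⟩
          · rw [← hrj]
            exact RPath.cons r [] _ (RPath.nil _)
          · intro _ r' hr'
            simp only [List.getLast?_singleton, Option.some.injEq] at hr'
            subst hr'
            rw [hrf]
            exact hL.1
          · rw [h1]
            simp [codeL, hrf]
        | some f' =>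
          obtain ⟨r₁, r₂, h1, h2, h3, h4, h5⟩ := hL.1
          obtain ⟨r₃, k1, k2, k3, k4⟩ := role_product r r₁ hr h1 (by rw [hrf, h3])
          obtain ⟨i, p, m, hp, hpL⟩ := ih (roleTgt r₃) hL.2 (by
            intro f'' hf''
            simp only [List.head?_cons, Option.some.injEq] at hf''
            subst hf''
            exact ⟨r₂, h2, h4, by rw [k4, h5]⟩)
          have hpne : p ≠ [] := by
            rintro rfl
            cases m with
            | zero => simp [codeL] at hpL
            | succ m => simp [codeL, List.replicate_succ] at hpL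
          refine ⟨i, r₃ :: p, m, ⟨?_, ?_, ?_⟩, ?_⟩
          · rw [← hrj, ← k3]
            exact RPath.cons r₃ p i hp.path
          · intro r' hr'
            rcases List.mem_cons.1 hr' with rfl | hr'
            · exact k1
            · exact hp.lt r' hr'
          · intro hm r' hr'
            rw [List.getLast?_cons_of_ne_nil hpne] at hr'
            exact hp.last hm r' hr'
          · rw [hpL]
            simp [codeL, k2, hrf]

theorem codeL_cons (r : Fin 13) (p : List (Fin 13)) (m : ℕ) :
    codeL (r :: p) m = some (roleLetter r) :: codeL p m := by simp [codeL]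

theorem _root_.Pool.Agent.CircleShift.RPath.src_eq {j i : Fin 3} {r : Fin 13} {p : List (Fin 13)} (h : RPath j i (r :: p)) :
    j = roleSrc r ∧ RPath (roleTgt r) i p := by
  cases h with
  | cons r p i h => exact ⟨rfl, h⟩

theorem chain_codeL {j i : Fin 3} {p : List (Fin 13)} {m : ℕ} (h : GPath j i p m) :
    List.IsChain TR (codeL p m) := by
  obtain ⟨h1, h2, h3⟩ := h
  induction p generalizing j with
  | nil =>
    clear h1 h2 h3
    simp only [codeL, List.map_nil, List.nil_append]
    induction m with
    | zero => simp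
    | succ m ih =>
      cases m with
      | zero => simp
      | succ m =>
        rw [List.replicate_succ, List.replicate_succ, List.isChain_cons_cons]
        exact ⟨trivial, by rw [← List.replicate_succ]; exact ih⟩
  | cons r p ih =>
    obtain ⟨rfl, hp⟩ := h1.src_eq
    rw [codeL_cons]
    cases p with
    | nil =>
      cases m with
      | zero => simp [codeL]
      | succ m =>
        have h4 := ih hp (by simp) (by simp)
        simp only [codeL, List.map_nil, List.nil_append, List.replicate_succ] at h4 ⊢
        rw [List.isChain_cons_cons]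
        exact ⟨h3 (by omega) r (by simp), h4⟩
    | cons r' p =>
      have h4 := ih hp (fun x hx => h2 x (List.mem_cons_of_mem _ hx)) (by
        intro hm x hx
        exact h3 hm x (by rw [List.getLast?_cons_cons]; exact hx))
      rw [codeL_cons] at h4 ⊢
      rw [List.isChain_cons_cons]
      refine ⟨⟨r, r', h2 r (by simp), h2 r' (by simp), rfl, rfl, ?_⟩, h4⟩
      exact hp.src_eq.1

/-! ## The mapping classes -/

theorem elt_mem (hPer : Stmt_Per) (x : Option (Fin 7)) : thA⁻¹ * elt x * thA ∈ AutS := by
  cases x with
  | none =>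
    have h := uconj_mem hPer 1
    rw [pow_one] at h
    exact h
  | some l => exact hPer.1 l

/-- The automorphisms of the generators of the shift. -/
def eltS (hPer : Stmt_Per) (x : Option (Fin 7)) : AutS := ⟨thA⁻¹ * elt x * thA, elt_mem hPer x⟩

/-- The mapping classes of the shift. -/
def sig (hPer : Stmt_Per) (x : Option (Fin 7)) : Mod := (((eltS hPer x)⁻¹ : AutS) : Mod)

theorem sig_injective (hPer : Stmt_Per) (hDist : Stmt_Dist) : Function.Injective (sig hPer) := by
  intro x y h
  have h1 := QuotientGroup.eq.1 h
  rw [inv_inv, InnS, Subgroup.mem_subgroupOf] at h1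
  obtain ⟨g, hg⟩ := h1
  have h2 : MulAut.conj g = (thA⁻¹ * elt x * thA) * (thA⁻¹ * elt y * thA)⁻¹ := hg
  refine hDist x y ((elt y)⁻¹ (thA g)) ?_
  have h3 : elt x = thA * MulAut.conj g * thA⁻¹ * elt y := by
    rw [h2]; group
  rw [h3]
  ext z
  simp [MulAut.conj_apply]

/-- The set of generators. -/
def FS (hPer : Stmt_Per) : Set Mod := Set.range (sig hPer)

/-- The set of allowed pairs. -/
def PS (hPer : Stmt_Per) : Set (Mod × Mod) :=
  {z | ∃ x y, TR x y ∧ z = (sig hPer x, sig hPer y)}

theorem PS_subset (hPer : Stmt_Per) : PS hPer ⊆ FS hPer ×ˢ FS hPer := by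
  rintro z ⟨x, y, _, rfl⟩
  exact ⟨⟨x, rfl⟩, ⟨y, rfl⟩⟩

/-- The automorphism of a word of the shift. -/
def eltP (L : List (Option (Fin 7))) : MulAut G := (L.map elt).prod

theorem eltS_prod (hPer : Stmt_Per) (L : List (Option (Fin 7))) :
    ((L.map (eltS hPer)).prod : AutS).1 = thA⁻¹ * eltP L * thA := by
  induction L with
  | nil => simp [eltP]
  | cons x L ih =>
    rw [List.map_cons, List.prod_cons, Subgroup.coe_mul, ih]
    simp only [eltS, eltP, List.map_cons, List.prod_cons]
    group

/-- The point of Teichmuller space of a marked surface. -/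
def tmk (X : MarkedSurface) : Teich := Quotient.mk _ X

theorem act_hypLen (a : AutS) (z : Teich) (g : G) :
    Teich.hypLen (act ((a⁻¹ : AutS) : Mod) z) g = z.hypLen (a.1 g) := by
  induction z using Quotient.inductionOn with
  | _ X =>
    have h : act ((a⁻¹ : AutS) : Mod) (Quotient.mk _ X) =
        tmk (X.remark ((a⁻¹)⁻¹ : AutS).1 ((a⁻¹)⁻¹ : AutS).2) := rfl
    rw [h]
    have h2 : ∀ χ (hχ : χ ∈ AutS), (X.remark χ hχ).hypLen g = X.hypLen (χ g) := fun χ hχ => rfl
    change (X.remark ((a⁻¹)⁻¹ : AutS).1 ((a⁻¹)⁻¹ : AutS).2).hypLen g = _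
    rw [h2, inv_inv]
    rfl

theorem foldl_hypLen (hPer : Stmt_Per) (L : List (Option (Fin 7))) (z : Teich) (g : G) :
    Teich.hypLen ((L.map (sig hPer)).foldl (fun z t => act t z) z) g =
      z.hypLen (((L.map (eltS hPer)).prod : AutS).1 g) := by
  induction L generalizing z with
  | nil => rfl
  | cons x L ih =>
    rw [List.map_cons, List.foldl_cons, ih, List.map_cons, List.prod_cons, Subgroup.coe_mul,
      MulAut.mul_apply]
    exact act_hypLen (eltS hPer x) z _

theorem eltP_codeL (hLet : Stmt_Let) {j i : Fin 3} {p : List (Fin 13)} (h : RPath j i p) (m : ℕ) :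
    eltP (codeL p m) = (thAut j)⁻¹ * pathAut p * thAut i * uAut⁻¹ ^ m := by
  have h0 : ∀ (L : List (Option (Fin 7))) x, eltP (x :: L) = elt x * eltP L := fun L x => by
    simp [eltP]
  induction h with
  | nil j =>
    have : eltP (codeL [] m) = uAut⁻¹ ^ m := by
      simp only [codeL, List.map_nil, List.nil_append]
      induction m with
      | zero => simp [eltP]
      | succ m ih => rw [List.replicate_succ, h0, ih, pow_succ']; rfl
    rw [this]
    simp [pathAut]
  | cons r p i hp ih =>
    rw [codeL_cons, h0, ih]
    simp only [elt, pathAut, List.map_cons, List.prod_cons]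
    rw [hLet r]
    group

/-- The length function of a point of the shift. -/
def fpt (j i : Fin 3) (p : List (Fin 13)) (m : ℕ) (g : G) : ℝ :=
  ell ((thAut j)⁻¹ (pathAut p (thAut i ((uAut⁻¹ ^ m) (thA g)))))

theorem xlen_nonneg (g : G) : 0 ≤ xlen g := Real.iInf_nonneg fun _ => dist_nonneg

theorem point_eq (hLet : Stmt_Let) (hPer : Stmt_Per) (X : MarkedSurface)
    (hX : ∀ g, X.hypLen g = ENNReal.ofReal (xlen (psiAut⁻¹ (thA g)))) {j i : Fin 3}
    {p : List (Fin 13)} (h : RPath j i p) (m : ℕ) :
    Teich.toPLen (((codeL p m).map (sig hPer)).foldl (fun z t => act t z) (tmk X)) =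
      PLen.mk (fpt j i p m) := by
  unfold Teich.toPLen
  congr 1
  funext g
  have hX' : (tmk X).hypLen = X.hypLen := rfl
  rw [foldl_hypLen, hX', hX, ENNReal.toReal_ofReal (xlen_nonneg _), eltS_prod,
    eltP_codeL hLet h]
  simp only [fpt, ell, MulAut.mul_apply, MulAut.apply_inv_self]

theorem shift_eq (hLet : Stmt_Let) (hPer : Stmt_Per) (hDist : Stmt_Dist) (X : MarkedSurface)
    (hX : ∀ g, X.hypLen g = ENNReal.ofReal (xlen (psiAut⁻¹ (thA g)))) (n : ℕ) :
    Teich.toPLen '' shiftSet (FS hPer) (PS hPer) (tmk X) n =
      {y | ∃ j i p m, GPath j i p m ∧ p.length + m = n ∧ y = PLen.mk (fpt j i p m)} := by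
  ext y
  constructor
  · rintro ⟨z, ⟨s, hs, hP, rfl⟩, rfl⟩
    choose w hw using hs
    have hch : List.IsChain TR (List.ofFn w) := by
      rw [List.isChain_ofFn]
      intro k hk
      obtain ⟨x, y, hT, hxy⟩ := hP ⟨k, by omega⟩ ⟨k + 1, hk⟩ rfl
      rw [← hw, ← hw] at hxy
      have h1 := sig_injective hPer hDist (Prod.ext_iff.1 hxy).1
      have h2 := sig_injective hPer hDist (Prod.ext_iff.1 hxy).2
      rw [h1, h2]
      exact hT
    have hhead : ∃ j, ∀ f, (List.ofFn w).head? = some (some f) →
        ∃ r : Fin 13, r.val < 12 ∧ roleLetter r = f ∧ roleSrc r = j := by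
      cases h : (List.ofFn w).head? with
      | none => exact ⟨0, by simp⟩
      | some x =>
        cases x with
        | none => exact ⟨0, by simp⟩
        | some f =>
          have h1 : ∀ f : Fin 7, ∃ r : Fin 13, r.val < 12 ∧ roleLetter r = f := by decide +kernel
          obtain ⟨r, hr, hrf⟩ := h1 f
          refine ⟨roleSrc r, fun f' hf' => ⟨r, hr, ?_, rfl⟩⟩
          simp only [Option.some.injEq] at hf'
          rw [hrf, hf']
    obtain ⟨j, hj⟩ := hhead
    obtain ⟨i, p, m, hp, hL⟩ := chain_split _ j hch hj
    refine ⟨j, i, p, m, hp, ?_, ?_⟩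
    · have := congrArg List.length hL
      simp only [List.length_ofFn, codeL, List.length_append, List.length_map,
        List.length_replicate] at this
      exact this.symm
    · rw [← point_eq hLet hPer X hX hp.path m, ← hL, List.map_ofFn]
      congr 5
      funext k
      exact (hw k).symm
  · rintro ⟨j, i, p, m, hp, hn, rfl⟩
    subst hn
    have hlen : (codeL p m).length = p.length + m := by simp [codeL]
    refine ⟨_, ⟨fun k => sig hPer ((codeL p m).get (k.cast hlen.symm)), fun k => ⟨_, rfl⟩, ?_,
      rfl⟩, ?_⟩
    · intro a b hab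
      have hch := chain_codeL hp
      rw [List.isChain_iff_getElem] at hch
      refine ⟨_, _, ?_, rfl⟩
      have h1 := hch a.val (by rw [hlen]; omega)
      simp only [List.get_eq_getElem, Fin.val_cast]
      simp only [← hab]
      exact h1
    · rw [← point_eq hLet hPer X hX hp.path m]
      congr 4
      apply List.ext_getElem
      · simp [hlen]
      · intro k h1 h2
        simp

end TopAux

end Pool.Agent.CircleShift
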