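import Pool.Agent.Work.MP_0fc146_gt_h31.Top1

/-!
# Block Top, part 2: limits
-/

noncomputable section

open scoped Topology ENNReal UpperHalfPlane Manifold ContDiff
open Filter

namespace Pool.Agent.CircleShift

namespace TopAux

theorem mk_continuous : Continuous PLen.mk := continuous_quotient_mk'

theorem mk_smul {f : G → ℝ} {r : ℝ} (hr : 0 < r) : PLen.mk (fun g => r * f g) = PLen.mk f :=
  (mk_eq_of_smul hr (fun _ => rfl)).symm

theorem tendsto_mk {ι : Type*} {l : Filter ι} {F : ι → G → ℝ} {r : ι → ℝ} {f : G → ℝ}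
    (hr : ∀ᶠ n in l, 0 < r n) (h : ∀ g, Tendsto (fun n => r n * F n g) l (𝓝 (f g))) :
    Tendsto (fun n => PLen.mk (F n)) l (𝓝 (PLen.mk f)) := by
  have h1 : Tendsto (fun n => (fun g => r n * F n g : G → ℝ)) l (𝓝 f) := tendsto_pi_nhds.2 h
  have h2 := (mk_continuous.tendsto f).comp h1
  refine h2.congr' ?_
  filter_upwards [hr] with n hn
  exact mk_smul hn

/-- The points of the circle. -/
def CS : Set PLen := {PLen.mk (fun g => HH (thA g))} ∪
  Set.range (fun s => PLen.mk (fun g => VV s (thA g)))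

/-- The error estimate for the points of the shift. -/
theorem main_est (hVV : Stmt_VV) (hL1 : Stmt_L1) (hL4 : Stmt_L4) :
    ∃ Q β c₁ : ℝ, 0 ≤ Q ∧ 0 < β ∧ β < 1 ∧ 0 < c₁ ∧ ∀ j i p, RPath j i p → ∃ κ, c₁ ≤ κ ∧ κ ≤ c₁⁻¹ ∧
      ∀ s ∈ K j, ∀ (m : ℕ) (g : G), |(κ * lam ^ p.length * lam ^ m)⁻¹ * fpt j i p m g -
        (lam ^ (2 * m))⁻¹ * VV (lam ^ m * pathMap p s) (thA g)| ≤
          Q * ((thA g).norm + 1) * β ^ p.length := by
  obtain ⟨Q, β, c₁, hQ, hβ0, hβ1, hc₁, h⟩ := hL1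
  obtain ⟨Q4, h4⟩ := hL4
  refine ⟨Q * (|Q4| + 1), β, c₁, by positivity, hβ0, hβ1, hc₁, fun j i p hp => ?_⟩
  obtain ⟨κ, hκ1, hκ2, hκ⟩ := h j i p hp
  refine ⟨κ, hκ1, hκ2, fun s hs m g => ?_⟩
  have hκ0 : 0 < κ := hc₁.trans_le hκ1
  have hlm : 0 < lam ^ m := pow_pos lam_pos m
  have hlm1 : 1 ≤ lam ^ m := one_le_pow₀ one_lt_lam.le
  have hlp : 0 < lam ^ p.length := pow_pos lam_pos _
  have h1 := hκ s hs ((uAut⁻¹ ^ m) (thA g))
  have h2 := VV_pow hVV m (pathMap p s) (thA g)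
  have h3 : (lam ^ (2 * m))⁻¹ * VV (lam ^ m * pathMap p s) (thA g) =
      (lam ^ m)⁻¹ * VV (pathMap p s) ((uAut⁻¹ ^ m) (thA g)) := by
    rw [h2, two_mul, pow_add]
    field_simp
  have h5 : (κ * lam ^ p.length * lam ^ m)⁻¹ * fpt j i p m g = (lam ^ m)⁻¹ *
      (ell ((thAut j)⁻¹ (pathAut p (thAut i ((uAut⁻¹ ^ m) (thA g))))) /
        (κ * lam ^ p.length)) := by
    unfold fpt
    field_simp
  rw [h3, h5, ← mul_sub, abs_mul, abs_of_pos (inv_pos.2 hlm)]
  have h6 : ((((uAut⁻¹ ^ m) (thA g)).norm : ℝ) + 1) ≤ lam ^ m * ((|Q4| + 1) * ((thA g).norm + 1)) := by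
    have h7 := h4 m (thA g)
    have h8 : Q4 * lam ^ m * ((thA g).norm : ℝ) ≤ |Q4| * lam ^ m * ((thA g).norm : ℝ) := by
      have := le_abs_self Q4
      gcongr
    have h9 : (0 : ℝ) ≤ (thA g).norm := Nat.cast_nonneg _
    have h10 : (0 : ℝ) ≤ |Q4| := abs_nonneg _
    nlinarith [mul_nonneg h10 h9, mul_nonneg hlm.le h10, mul_nonneg hlm.le h9]
  calc (lam ^ m)⁻¹ * _ ≤ (lam ^ m)⁻¹ * (Q * ((((uAut⁻¹ ^ m) (thA g)).norm : ℝ) + 1) *
        β ^ p.length) := by gcongr
    _ ≤ (lam ^ m)⁻¹ * (Q * (lam ^ m * ((|Q4| + 1) * ((thA g).norm + 1))) * β ^ p.length) := by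
        gcongr
    _ = Q * (|Q4| + 1) * ((thA g).norm + 1) * β ^ p.length := by
        field_simp

/-- Points far out on the line are close to the point at infinity. -/
theorem far_est (hL3 : Stmt_L3) : ∃ Q β c₁ : ℝ, 0 ≤ Q ∧ 0 < β ∧ β < 1 ∧ 0 < c₁ ∧ ∀ s : ℝ,
    1 / 8 ≤ |s| → |s| ≤ 3 / 2 → ∃ b, c₁ ≤ b ∧ b ≤ c₁⁻¹ ∧ ∀ (m : ℕ) (g : G),
      |(lam ^ (2 * m))⁻¹ * VV (lam ^ m * s) g - b * HH g| ≤ Q * (g.norm + 1) * β ^ m := by
  obtain ⟨Q, β, c₁, hQ, hβ0, hβ1, hc₁, h⟩ := hL3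
  have hl1 := one_lt_lam
  have hl := lam_gt
  have hl' := lam_lt
  -- general step
  have key : ∀ e : ℕ, 1 ≤ e → e ≤ 3 → ∀ s : ℝ, 1 / 4 / lam ^ 2 ≤ |s / lam ^ e| →
      |s / lam ^ e| ≤ 1 / lam ^ 2 → ∃ b, c₁ ≤ b ∧ b ≤ lam ^ 6 * c₁⁻¹ ∧ ∀ (m : ℕ) (g : G),
      |(lam ^ (2 * m))⁻¹ * VV (lam ^ m * s) g - b * HH g| ≤
        lam ^ 6 * Q * (g.norm + 1) * β ^ m := by
    intro e he1 he2 s hs1 hs2
    obtain ⟨b, hb1, hb2, hb⟩ := h (s / lam ^ e) hs1 hs2
    have hle : 0 < lam ^ e := pow_pos lam_pos e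
    have h2e : lam ^ (2 * e) ≤ lam ^ 6 := pow_le_pow_right₀ hl1.le (by omega)
    have h2e1 : 1 ≤ lam ^ (2 * e) := one_le_pow₀ hl1.le
    have hb0 : 0 < b := hc₁.trans_le hb1
    refine ⟨lam ^ (2 * e) * b, ?_, ?_, fun m g => ?_⟩
    · nlinarith
    · exact mul_le_mul h2e hb2 hb0.le (by positivity)
    · have h1 := hb (m + e) g
      have h2 : lam ^ (m + e) * (s / lam ^ e) = lam ^ m * s := by
        rw [pow_add]; field_simp
      rw [h2] at h1
      have h3 : (lam ^ (2 * m))⁻¹ * VV (lam ^ m * s) g - lam ^ (2 * e) * b * HH g =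
          lam ^ (2 * e) * (VV (lam ^ m * s) g / lam ^ (2 * (m + e)) - b * HH g) := by
        rw [mul_add, pow_add]
        have : lam ^ (2 * e) ≠ 0 := by positivity
        field_simp
      rw [h3, abs_mul, abs_of_pos (by positivity : (0 : ℝ) < lam ^ (2 * e))]
      have h4 : β ^ (m + e) ≤ β ^ m := pow_le_pow_of_le_one hβ0.le hβ1.le (by omega)
      calc lam ^ (2 * e) * _ ≤ lam ^ 6 * (Q * (g.norm + 1) * β ^ (m + e)) := by gcongr
        _ ≤ lam ^ 6 * (Q * (g.norm + 1) * β ^ m) := by gcongr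
        _ = _ := by ring
  refine ⟨lam ^ 6 * Q, β, c₁ / lam ^ 6, by positivity, hβ0, hβ1, by positivity,
    fun s hs1 hs2 => ?_⟩
  have hinv : (c₁ / lam ^ 6)⁻¹ = lam ^ 6 * c₁⁻¹ := by field_simp
  have hsmall : c₁ / lam ^ 6 ≤ c₁ := div_le_self hc₁.le (one_le_pow₀ hl1.le)
  rw [hinv]
  by_cases h4 : 1 / 4 ≤ |s|
  · by_cases h5 : |s| ≤ 1
    · obtain ⟨b, hb1, hb2, hb⟩ := key 2 (by norm_num) (by norm_num) s (by
        rw [abs_div, abs_of_pos (by positivity : (0 : ℝ) < lam ^ 2)]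
        gcongr) (by
        rw [abs_div, abs_of_pos (by positivity : (0 : ℝ) < lam ^ 2)]
        gcongr)
      exact ⟨b, hsmall.trans hb1, hb2, hb⟩
    · push Not at h5
      have h33 : lam ^ 3 = lam * lam ^ 2 := by ring
      obtain ⟨b, hb1, hb2, hb⟩ := key 3 (by norm_num) le_rfl s (by
        rw [abs_div, abs_of_pos (by positivity : (0 : ℝ) < lam ^ 3), div_le_div_iff₀
          (by positivity) (by positivity), h33]
        have : (0 : ℝ) < lam ^ 2 := by positivity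
        nlinarith) (by
        rw [abs_div, abs_of_pos (by positivity : (0 : ℝ) < lam ^ 3), div_le_div_iff₀
          (by positivity) (by positivity), h33]
        have : (0 : ℝ) < lam ^ 2 := by positivity
        nlinarith)
      exact ⟨b, hsmall.trans hb1, hb2, hb⟩
  · push Not at h4
    obtain ⟨b, hb1, hb2, hb⟩ := key 1 le_rfl (by norm_num) s (by
      rw [abs_div, abs_of_pos (by positivity : (0 : ℝ) < lam ^ 1), div_le_div_iff₀ (by positivity)
        (by positivity)]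
      nlinarith) (by
      rw [abs_div, abs_of_pos (by positivity : (0 : ℝ) < lam ^ 1), div_le_div_iff₀ (by positivity)
        (by positivity)]
      nlinarith)
    exact ⟨b, hsmall.trans hb1, hb2, hb⟩

theorem K_abs {i : Fin 3} {s : ℝ} (h : s ∈ K i) : |s| ≤ 3 / 2 := by
  unfold K lft at h
  have h1 := sq3_lo
  have h2 := sq3_hi
  rw [abs_le]
  fin_cases i <;> simp [endTab, z3] at h <;> constructor <;> linarith [h.1, h.2]

theorem GPath.far {j i : Fin 3} {p : List (Fin 13)} {m : ℕ} (h : GPath j i p m) (hp : p ≠ [])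
    (hm : 1 ≤ m) (hC : Stmt_Code) {s : ℝ} (hs : s ∈ K j) : 1 / 8 ≤ |pathMap p s| := by
  obtain ⟨h1, h2, h3⟩ := h
  obtain ⟨q, r, rfl⟩ : ∃ q r, p = q ++ [r] := ⟨p.dropLast, p.getLast hp, by
    rw [List.dropLast_append_getLast]⟩
  have h4 := h3 hm r (by simp)
  obtain ⟨k, hk1, hk2⟩ := rpath_split h1
  obtain ⟨rfl, -⟩ := hk2.src_eq
  rw [pathMap_append]
  exact hC.2.2.2 r (h2 r (by simp)) h4.1 h4.2 _ (pathMap_mem hk1 hs)

theorem lft_mem (j : Fin 3) : lft j ∈ K j := ⟨le_rfl, by linarith⟩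

/-- A limit along an ultrafilter. -/
theorem ultra_lim (hVV : Stmt_VV) (hC : Stmt_Code) (hCont : Stmt_Cont) (hL1 : Stmt_L1)
    (hL2 : Stmt_L2) (hL3 : Stmt_L3) (hL4 : Stmt_L4) (U : Ultrafilter ℕ) (hU : (U : Filter ℕ) ≤ atTop)
    (j i : ℕ → Fin 3) (p : ℕ → List (Fin 13)) (m : ℕ → ℕ)
    (hG : ∀ᶠ n in (U : Filter ℕ), GPath (j n) (i n) (p n) (m n) ∧ (p n).length + m n = n) :
    ∃ y ∈ CS, Tendsto (fun n => PLen.mk (fpt (j n) (i n) (p n) (m n))) (U : Filter ℕ) (𝓝 y) := by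
  by_cases hlen : Tendsto (fun n => (p n).length) (U : Filter ℕ) atTop
  · -- long paths
    obtain ⟨Q, β, c₁, hQ, hβ0, hβ1, hc₁, hest⟩ := main_est hVV hL1 hL4
    have hκ : ∀ n, ∃ κ : ℝ, 0 < κ ∧ (GPath (j n) (i n) (p n) (m n) → κ ≤ c₁⁻¹ ∧ ∀ g : G,
        |(κ * lam ^ (p n).length * lam ^ (m n))⁻¹ * fpt (j n) (i n) (p n) (m n) g -
          (lam ^ (2 * m n))⁻¹ * VV (lam ^ (m n) * pathMap (p n) (lft (j n))) (thA g)| ≤
          Q * ((thA g).norm + 1) * β ^ (p n).length) := by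
      intro n
      by_cases h : GPath (j n) (i n) (p n) (m n)
      · obtain ⟨κ, hκ1, hκ2, hκ⟩ := hest _ _ _ h.path
        exact ⟨κ, hc₁.trans_le hκ1, fun _ => ⟨hκ2, fun g => hκ _ (lft_mem _) (m n) g⟩⟩
      · exact ⟨1, one_pos, fun h' => (h h').elim⟩
    choose κ hκ0 hκ using hκ
    set s₁ : ℕ → ℝ := fun n => pathMap (p n) (lft (j n)) with hs₁
    have hmem : ∀ᶠ n in (U : Filter ℕ), s₁ n ∈ K (i n) := by
      filter_upwards [hG] with n hn
      exact pathMap_mem hn.1.path (lft_mem _)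
    -- it is enough to treat the functions `VV`
    have hβlim : ∀ C : ℝ, Tendsto (fun n => C * β ^ (p n).length) (U : Filter ℕ) (𝓝 0) := by
      intro C
      have := (tendsto_pow_atTop_nhds_zero_of_lt_one hβ0.le hβ1).comp hlen
      simpa using this.const_mul C
    have hdiff : ∀ g, Tendsto (fun n => (κ n * lam ^ (p n).length * lam ^ (m n))⁻¹ *
        fpt (j n) (i n) (p n) (m n) g - (lam ^ (2 * m n))⁻¹ * VV (lam ^ (m n) * s₁ n) (thA g)) (U : Filter ℕ)
        (𝓝 0) := by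
      intro g
      refine squeeze_zero_norm' ?_ (hβlim (Q * ((thA g).norm + 1)))
      filter_upwards [hG] with n hn
      exact (hκ n hn.1).2 g
    have hstep : ∀ (r : ℕ → ℝ) (C : ℝ) (f : G → ℝ), (∀ᶠ n in (U : Filter ℕ), 0 < r n ∧ r n ≤ C) →
        (∀ g, Tendsto (fun n => r n * ((lam ^ (2 * m n))⁻¹ * VV (lam ^ (m n) * s₁ n) (thA g))) (U : Filter ℕ)
          (𝓝 (f g))) →
        Tendsto (fun n => PLen.mk (fpt (j n) (i n) (p n) (m n))) (U : Filter ℕ) (𝓝 (PLen.mk f)) := by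
      intro r C f hr hf
      refine tendsto_mk (r := fun n => r n * (κ n * lam ^ (p n).length * lam ^ (m n))⁻¹) ?_ ?_
      · filter_upwards [hr] with n hn
        have := lam_pos
        have := hκ0 n
        have := hn.1
        positivity
      · intro g
        have h1 : Tendsto (fun n => r n * ((κ n * lam ^ (p n).length * lam ^ (m n))⁻¹ *
            fpt (j n) (i n) (p n) (m n) g - (lam ^ (2 * m n))⁻¹ *
              VV (lam ^ (m n) * s₁ n) (thA g))) (U : Filter ℕ) (𝓝 0) := by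
          have h2 := (hdiff g).norm.const_mul C
          simp only [norm_zero, mul_zero] at h2
          refine squeeze_zero_norm' ?_ h2
          filter_upwards [hr] with n hn
          rw [norm_mul, Real.norm_of_nonneg hn.1.le]
          exact mul_le_mul_of_nonneg_right hn.2 (norm_nonneg _)
        have h3 := h1.add (hf g)
        rw [zero_add] at h3
        refine h3.congr fun n => ?_
        ring
    by_cases hm : Tendsto m (U : Filter ℕ) atTop
    · -- the limit is the point at infinity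
      obtain ⟨Q', β', c', hQ', hβ0', hβ1', hc', hfar⟩ := far_est hL3
      have hb : ∀ n, ∃ b : ℝ, c' ≤ b ∧ b ≤ c'⁻¹ ∧ (1 / 8 ≤ |s₁ n| → |s₁ n| ≤ 3 / 2 → ∀ (g : G),
          |(lam ^ (2 * m n))⁻¹ * VV (lam ^ (m n) * s₁ n) g - b * HH g| ≤
            Q' * (g.norm + 1) * β' ^ (m n)) := by
        intro n
        by_cases h1 : 1 / 8 ≤ |s₁ n| ∧ |s₁ n| ≤ 3 / 2
        · obtain ⟨b, hb1, hb2, hb⟩ := hfar _ h1.1 h1.2
          exact ⟨b, hb1, hb2, fun _ _ g => hb (m n) g⟩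
        · obtain ⟨b, hb1, hb2, -⟩ := hfar 1 (by norm_num) (by norm_num)
          exact ⟨b, hb1, hb2, fun h2 h3 => (h1 ⟨h2, h3⟩).elim⟩
      choose b hb1 hb2 hb using hb
      refine ⟨_, Or.inl rfl, hstep (fun n => (b n)⁻¹) c'⁻¹ _ ?_ ?_⟩
      · filter_upwards with n
        have := hc'.trans_le (hb1 n)
        exact ⟨inv_pos.2 this, inv_anti₀ hc' (hb1 n)⟩
      · intro g
        have hev : ∀ᶠ n in (U : Filter ℕ), |(lam ^ (2 * m n))⁻¹ * VV (lam ^ (m n) * s₁ n) (thA g) -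
            b n * HH (thA g)| ≤ Q' * ((thA g).norm + 1) * β' ^ (m n) := by
          filter_upwards [hG, hm.eventually_ge_atTop 1, hlen.eventually_ge_atTop 1, hmem]
            with n h1 h2 h3 h4
          refine hb n (h1.1.far ?_ h2 hC (lft_mem _)) (K_abs h4) (thA g)
          intro h5
          rw [h5] at h3
          simp at h3
        have hz : Tendsto (fun n => c'⁻¹ * (Q' * ((thA g).norm + 1) * β' ^ (m n))) (U : Filter ℕ) (𝓝 0) := by
          have := (tendsto_pow_atTop_nhds_zero_of_lt_one hβ0'.le hβ1').comp hm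
          have := (this.const_mul (Q' * ((thA g).norm + 1))).const_mul c'⁻¹
          simpa using this
        rw [← tendsto_sub_nhds_zero_iff]
        refine squeeze_zero_norm' ?_ hz
        filter_upwards [hev] with n hn
        have hbn := hc'.trans_le (hb1 n)
        have h6 : (b n)⁻¹ * ((lam ^ (2 * m n))⁻¹ * VV (lam ^ (m n) * s₁ n) (thA g)) - HH (thA g) =
            (b n)⁻¹ * ((lam ^ (2 * m n))⁻¹ * VV (lam ^ (m n) * s₁ n) (thA g) -
              b n * HH (thA g)) := by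
          field_simp
        rw [h6, norm_mul, Real.norm_of_nonneg (inv_pos.2 hbn).le]
        exact mul_le_mul (inv_anti₀ hc' (hb1 n)) hn (norm_nonneg _) (inv_pos.2 hc').le
    · -- `m` is constant
      obtain ⟨M, hM⟩ : ∃ M, ∀ᶠ n in (U : Filter ℕ), m n < M := by
        rw [tendsto_atTop] at hm
        push Not at hm
        exact hm
      obtain ⟨m₀, -, hm₀⟩ := (Ultrafilter.eventually_exists_mem_iff (Set.finite_lt_nat M)
        (P := fun a n => m n = a)).1 (by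
          filter_upwards [hM] with n hn
          exact ⟨m n, hn, rfl⟩)
      obtain ⟨i₀, -, hi₀⟩ := (Ultrafilter.eventually_exists_mem_iff (f := U) (Set.finite_univ)
        (P := fun a n => i n = a)).1 (by
          filter_upwards with n
          exact ⟨i n, Set.mem_univ _, rfl⟩)
      obtain ⟨s, hs, hs1⟩ : ∃ s ∈ K i₀, Tendsto s₁ (U : Filter ℕ) (𝓝 s) := by
        have h1 : ↑(U.map s₁) ≤ 𝓟 (K i₀) := by
          rw [Filter.le_principal_iff]
          change ∀ᶠ n in (U : Filter ℕ), s₁ n ∈ K i₀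
          filter_upwards [hmem, hi₀] with n h1 h2
          rw [← h2]; exact h1
        obtain ⟨s, hs, h2⟩ := (isCompact_Icc : IsCompact (K i₀)).ultrafilter_le_nhds _ h1
        exact ⟨s, hs, h2⟩
      refine ⟨PLen.mk (fun g => (lam ^ (2 * m₀))⁻¹ * VV (lam ^ m₀ * s) (thA g)), Or.inr ?_,
        hstep (fun _ => 1) 1 _ (by simp) ?_⟩
      · refine ⟨lam ^ m₀ * s, ?_⟩
        have : (0 : ℝ) < (lam ^ (2 * m₀))⁻¹ := inv_pos.2 (pow_pos lam_pos _)
        exact (mk_smul this).symm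
      · intro g
        have h1 : Tendsto (fun n => (lam ^ (2 * m₀))⁻¹ * VV (lam ^ m₀ * s₁ n) (thA g)) (U : Filter ℕ)
            (𝓝 ((lam ^ (2 * m₀))⁻¹ * VV (lam ^ m₀ * s) (thA g))) :=
          (((hCont (thA g)).tendsto _).comp (hs1.const_mul (lam ^ m₀))).const_mul _
        refine h1.congr' ?_
        filter_upwards [hm₀] with n hn
        rw [hn, one_mul]
  · -- the path is constant
    obtain ⟨M, hM⟩ : ∃ M, ∀ᶠ n in (U : Filter ℕ), (p n).length < M := by
      rw [tendsto_atTop] at hlen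
      push Not at hlen
      exact hlen
    obtain ⟨p₀, -, hp₀⟩ := (Ultrafilter.eventually_exists_mem_iff
      (List.finite_length_lt (Fin 13) M) (P := fun a n => p n = a)).1 (by
        filter_upwards [hM] with n hn
        exact ⟨p n, hn, rfl⟩)
    obtain ⟨i₀, -, hi₀⟩ := (Ultrafilter.eventually_exists_mem_iff (f := U) (Set.finite_univ)
      (P := fun a n => i n = a)).1 (by
        filter_upwards with n
        exact ⟨i n, Set.mem_univ _, rfl⟩)
    obtain ⟨j₀, -, hj₀⟩ := (Ultrafilter.eventually_exists_mem_iff (f := U) (Set.finite_univ)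
      (P := fun a n => j n = a)).1 (by
        filter_upwards with n
        exact ⟨j n, Set.mem_univ _, rfl⟩)
    have hm : Tendsto m (U : Filter ℕ) atTop := by
      have h1 : Tendsto (fun n : ℕ => n - p₀.length) atTop atTop := tendsto_sub_atTop_nat _
      refine (h1.mono_left hU).congr' ?_
      filter_upwards [hG, hp₀] with n h2 h3
      have := h2.2
      rw [h3] at this
      omega
    obtain ⟨b, hb, hlim⟩ := hL2 ((thAut j₀)⁻¹ * pathAut p₀ * thAut i₀)
    refine ⟨PLen.mk (fun g => HH (thA g)), Or.inl rfl, ?_⟩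
    refine tendsto_mk (r := fun n => b⁻¹ * (lam ^ (m n))⁻¹) ?_ ?_
    · filter_upwards with n
      have := lam_pos
      positivity
    · intro g
      have h1 := ((hlim (thA g)).comp hm).const_mul b⁻¹
      have h2 : b⁻¹ * (b * HH (thA g)) = HH (thA g) := by field_simp
      rw [h2] at h1
      refine h1.congr' ?_
      filter_upwards [hp₀, hi₀, hj₀] with n h3 h4 h5
      simp only [Function.comp_apply, fpt, h3, h4, h5, MulAut.mul_apply]
      ring

end TopAux

end Pool.Agent.CircleShift
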